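import Pool.Agent.H825Z.RSym.Nat

/-! Frames over a manifold given by an atlas with compatible coordinate metrics. -/

set_option autoImplicit false
set_option maxSynthPendingDepth 3
set_option linter.unusedSectionVars false

open Set Filter Topology Function
open scoped ContDiff

namespace Pool.Agent.H825Z.RSym

structure Atl (E M : Type*) [NormedAddCommGroup E] [NormedSpace ℝ E] [TopologicalSpace M] where
  φ : M → OpenPartialHomeomorph M E
  mem : ∀ x, x ∈ (φ x).source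
  G : M → E → E →L[ℝ] E →L[ℝ] ℝ
  lm : ∀ x, LM (φ x).target (G x)
  smooth : ∀ x x', ContDiffOn ℝ ∞ (φ x' ∘ (φ x).symm)
    ((φ x).target ∩ (φ x).symm ⁻¹' (φ x').source)
  pull : ∀ x x', ∀ y ∈ (φ x).target ∩ (φ x).symm ⁻¹' (φ x').source, ∀ u v,
    G x y u v = G x' ((φ x' ∘ (φ x).symm) y) (fderiv ℝ (φ x' ∘ (φ x).symm) y u)
      (fderiv ℝ (φ x' ∘ (φ x).symm) y v)

variable {E M : Type*} [NormedAddCommGroup E] [NormedSpace ℝ E] [FiniteDimensional ℝ E]
  [TopologicalSpace M]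

namespace Atl

variable (A : Atl E M) {ι : Type} [Fintype ι]

def tr (x x' : M) : E → E := A.φ x' ∘ (A.φ x).symm

def W (x x' : M) : Set E := (A.φ x).target ∩ (A.φ x).symm ⁻¹' (A.φ x').source

lemma isOpen_W (x x' : M) : IsOpen (A.W x x') :=
  (A.φ x).isOpen_inter_preimage_symm (A.φ x').open_source

lemma iso (x x' : M) : Iso (A.W x x') (A.tr x x') (A.φ x').target (A.G x) (A.G x') where
  lm := ⟨A.isOpen_W x x', (A.lm x).smooth.mono inter_subset_left,
    fun y hy => (A.lm x).symm y hy.1, fun y hy => (A.lm x).nondeg y hy.1⟩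
  lm' := A.lm x'
  smooth := A.smooth x x'
  maps := fun _ hy => (A.φ x').map_source hy.2
  pull := A.pull x x'

variable {A}

lemma mem_W {x x' z : M} (h : z ∈ (A.φ x).source) (h' : z ∈ (A.φ x').source) :
    A.φ x z ∈ A.W x x' :=
  ⟨(A.φ x).map_source h, by simpa [(A.φ x).left_inv h] using h'⟩

lemma tr_apply {x x' z : M} (h : z ∈ (A.φ x).source) : A.tr x x' (A.φ x z) = A.φ x' z := by
  simp [tr, (A.φ x).left_inv h]

lemma fderiv_tr_comp {x x' x'' z : M} (h : z ∈ (A.φ x).source) (h' : z ∈ (A.φ x').source)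
    (h'' : z ∈ (A.φ x'').source) (v : E) :
    fderiv ℝ (A.tr x' x'') (A.φ x' z) (fderiv ℝ (A.tr x x') (A.φ x z) v) =
      fderiv ℝ (A.tr x x'') (A.φ x z) v := by
  have h1 := (A.iso x x').hasD (mem_W h h')
  have h2 := (A.iso x' x'').hasD (mem_W h' h'')
  rw [← tr_apply (x' := x') h] at h2
  have h3 := h2.comp _ h1
  have h4 : A.tr x' x'' ∘ A.tr x x' =ᶠ[𝓝 (A.φ x z)] A.tr x x'' := by
    filter_upwards [(A.isOpen_W x x').mem_nhds (mem_W h h')] with y hy
    simp [tr, (A.φ x').left_inv hy.2]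
  rw [(h3.congr_of_eventuallyEq h4.symm).fderiv, tr_apply h]
  rfl

lemma fderiv_tr_self {x z : M} (h : z ∈ (A.φ x).source) (v : E) :
    fderiv ℝ (A.tr x x) (A.φ x z) v = v := by
  have h4 : A.tr x x =ᶠ[𝓝 (A.φ x z)] id := by
    filter_upwards [(A.φ x).open_target.mem_nhds ((A.φ x).map_source h)] with y hy
    simp [tr, (A.φ x).right_inv hy]
  rw [h4.fderiv_eq]
  simp

variable (A)

/-- coordinates of a frame in the chart at `x₀` -/
noncomputable def κ (x₀ : M) (p : M × (ι → E)) : E × (ι → E) :=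
  (A.φ x₀ p.1, fun i => fderiv ℝ (A.tr p.1 x₀) (A.φ p.1 p.1) (p.2 i))

noncomputable def Ψ (x x' : M) (q : E × (ι → E)) : E × (ι → E) :=
  (A.tr x x' q.1, fun i => fderiv ℝ (A.tr x x') q.1 (q.2 i))

noncomputable def κi (x₀ : M) (q : E × (ι → E)) : M × (ι → E) :=
  ((A.φ x₀).symm q.1, fun i => fderiv ℝ (A.tr x₀ ((A.φ x₀).symm q.1)) q.1 (q.2 i))

variable {A}

lemma κ_change {x x' : M} {p : M × (ι → E)} (h : p.1 ∈ (A.φ x).source)
    (h' : p.1 ∈ (A.φ x').source) : A.κ x' p = A.Ψ x x' (A.κ x p) := by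
  simp only [κ, Ψ, tr_apply h]
  congr 1
  funext i
  rw [fderiv_tr_comp (A.mem _) h h']

lemma κ_self (p : M × (ι → E)) : A.κ p.1 p = (A.φ p.1 p.1, p.2) := by
  simp only [κ]
  congr 1
  funext i
  rw [fderiv_tr_self (A.mem _)]

lemma κ_κi {x₀ : M} {q : E × (ι → E)} (h : q.1 ∈ (A.φ x₀).target) : A.κ x₀ (A.κi x₀ q) = q := by
  have h1 := (A.φ x₀).map_target h
  have h2 := (A.φ x₀).right_inv h
  ext1
  · exact h2
  · funext i
    have := fderiv_tr_comp h1 (A.mem ((A.φ x₀).symm q.1)) h1 (q.2 i)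
    rw [fderiv_tr_self h1, h2] at this
    exact this

lemma κi_κ {x₀ : M} {p : M × (ι → E)} (h : p.1 ∈ (A.φ x₀).source) : A.κi x₀ (A.κ x₀ p) = p := by
  have h2 := (A.φ x₀).left_inv h
  ext1
  · exact h2
  · funext i
    simp only [κi, κ, h2]
    rw [fderiv_tr_comp (A.mem _) h (A.mem _), fderiv_tr_self (A.mem _)]

lemma κ_inj {x₀ : M} {p p' : M × (ι → E)} (h : p.1 ∈ (A.φ x₀).source)
    (h' : p'.1 ∈ (A.φ x₀).source) (he : A.κ x₀ p = A.κ x₀ p') : p = p' := by
  rw [← κi_κ h, he, κi_κ h']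

lemma κ_mem {x₀ : M} {p : M × (ι → E)} (h : p.1 ∈ (A.φ x₀).source) :
    (A.κ x₀ p).1 ∈ (A.φ x₀).target := (A.φ x₀).map_source h

lemma κ_mem_W {x x' : M} {p : M × (ι → E)} (h : p.1 ∈ (A.φ x).source)
    (h' : p.1 ∈ (A.φ x').source) : (A.κ x p).1 ∈ A.W x x' := mem_W h h'

lemma contDiffAt_Ψ {x x' : M} {q : E × (ι → E)} (h : q.1 ∈ A.W x x') :
    ContDiffAt ℝ ∞ (A.Ψ x x') q := by
  refine (((A.iso x x').at h).comp q contDiffAt_fst).prodMk ?_
  rw [contDiffAt_pi]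
  intro i
  exact (((A.iso x x').dat h).comp q contDiffAt_fst).clm_apply (by fun_prop)

lemma fderiv_Ψ {x x' : M} {q : E × (ι → E)} (h : q.1 ∈ A.W x x') (ξ : E × (ι → E)) :
    fderiv ℝ (A.Ψ x x') q ξ = (fderiv ℝ (A.tr x x') q.1 ξ.1, fun i =>
      fderiv ℝ (fderiv ℝ (A.tr x x')) q.1 ξ.1 (q.2 i) + fderiv ℝ (A.tr x x') q.1 (ξ.2 i)) := by
  have h1 := ((A.iso x x').hasD h).comp q (hasFDerivAt_fst (𝕜 := ℝ) (p := q))
  have h2 : ∀ i, HasFDerivAt (fun q : E × (ι → E) => fderiv ℝ (A.tr x x') q.1 (q.2 i)) _ q :=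
    fun i => (((A.iso x x').hasDD h).comp q (hasFDerivAt_fst (𝕜 := ℝ) (p := q))).clm_apply
      (((ContinuousLinearMap.proj i : (ι → E) →L[ℝ] E) ∘L
        ContinuousLinearMap.snd ℝ E (ι → E)).hasFDerivAt (x := q))
  have h3 := h1.prodMk (hasFDerivAt_pi.2 h2)
  have h4 : HasFDerivAt (A.Ψ x x') _ q := h3
  rw [h4.fderiv]
  ext1
  · simp
  · funext i
    simp [add_comm]

section maps

variable {V : Type*} [NormedAddCommGroup V] [NormedSpace ℝ V]

lemma κ_eventually {x x' : M} {U : V → M × (ι → E)} {z : V}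
    (hc : ContinuousAt (fun z => (U z).1) z) (h : (U z).1 ∈ (A.φ x).source)
    (h' : (U z).1 ∈ (A.φ x').source) :
    (fun z => A.κ x' (U z)) =ᶠ[𝓝 z] A.Ψ x x' ∘ fun z => A.κ x (U z) := by
  filter_upwards [hc.eventually ((A.φ x).open_source.mem_nhds h),
    hc.eventually ((A.φ x').open_source.mem_nhds h')] with w hw hw'
  exact κ_change hw hw'

lemma contDiffAt_change {n : ℕ} {x x' : M} {U : V → M × (ι → E)} {z : V}
    (hc : ContinuousAt (fun z => (U z).1) z) (h : (U z).1 ∈ (A.φ x).source)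
    (h' : (U z).1 ∈ (A.φ x').source) (hd : ContDiffAt ℝ n (fun z => A.κ x (U z)) z) :
    ContDiffAt ℝ n (fun z => A.κ x' (U z)) z :=
  (((contDiffAt_Ψ (κ_mem_W h h')).of_le (by exact_mod_cast le_top)).comp z
    hd).congr_of_eventuallyEq (κ_eventually hc h h')

lemma hasFDerivAt_change {x x' : M} {U : V → M × (ι → E)} {z : V} {L : V →L[ℝ] E × (ι → E)}
    (hc : ContinuousAt (fun z => (U z).1) z) (h : (U z).1 ∈ (A.φ x).source)
    (h' : (U z).1 ∈ (A.φ x').source) (hd : HasFDerivAt (fun z => A.κ x (U z)) L z) :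
    HasFDerivAt (fun z => A.κ x' (U z)) (fderiv ℝ (A.Ψ x x') (A.κ x (U z)) ∘L L) z :=
  ((((contDiffAt_Ψ (κ_mem_W h h')).differentiableAt (by simp)).hasFDerivAt).comp z
    hd).congr_of_eventuallyEq (κ_eventually hc h h')

variable (A) in
/-- `U` is `C^n` at `z` -/
def Sm (n : ℕ) (U : V → M × (ι → E)) (z : V) : Prop :=
  ContinuousAt (fun z => (U z).1) z ∧ ContDiffAt ℝ n (fun w => A.κ (U z).1 (U w)) z

lemma Sm.chart {n : ℕ} {U : V → M × (ι → E)} {z : V} (hU : A.Sm n U z) {x : M}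
    (h : (U z).1 ∈ (A.φ x).source) : ContDiffAt ℝ n (fun w => A.κ x (U w)) z :=
  contDiffAt_change hU.1 (A.mem _) h hU.2

lemma Sm.of_chart {n : ℕ} {U : V → M × (ι → E)} {z : V} {x : M}
    (hc : ContinuousAt (fun z => (U z).1) z) (h : (U z).1 ∈ (A.φ x).source)
    (hd : ContDiffAt ℝ n (fun w => A.κ x (U w)) z) : A.Sm n U z :=
  ⟨hc, contDiffAt_change hc h (A.mem _) hd⟩

lemma Sm.comp {V' : Type*} [NormedAddCommGroup V'] [NormedSpace ℝ V'] {n : ℕ}
    {U : V → M × (ι → E)} {j : V' → V} {z : V'} (hU : A.Sm n U (j z)) (hj : ContDiffAt ℝ n j z) :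
    A.Sm n (fun w => U (j w)) z :=
  ⟨ContinuousAt.comp (g := fun z => (U z).1) hU.1 hj.continuousAt,
    ContDiffAt.comp (g := fun w => A.κ (U (j z)).1 (U w)) z hU.2 hj⟩

lemma Sm.congr {n : ℕ} {U U' : V → M × (ι → E)} {z : V} (hU : A.Sm n U z) (h : U' =ᶠ[𝓝 z] U) :
    A.Sm n U' z := by
  refine ⟨hU.1.congr (h.mono fun w hw => by simp [hw]), ?_⟩
  rw [h.eq_of_nhds]
  exact hU.2.congr_of_eventuallyEq (h.mono fun w hw => by simp [hw])

lemma sm_κi {n : ℕ} {q : V → E × (ι → E)} {z : V} {x : M} (h : (q z).1 ∈ (A.φ x).target)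
    (hq : ContDiffAt ℝ n q z) : A.Sm n (fun w => A.κi x (q w)) z := by
  refine Sm.of_chart (x := x) ?_ ((A.φ x).map_target h) ?_
  · exact ContinuousAt.comp (g := (A.φ x).symm) (f := fun w => (q w).1)
      ((A.φ x).continuousAt_symm h) hq.continuousAt.fst
  · refine hq.congr_of_eventuallyEq ?_
    filter_upwards [hq.continuousAt.fst.eventually ((A.φ x).open_target.mem_nhds h)] with w hw
    exact κ_κi hw

end maps

variable (A) in
/-- the standard horizontal vector field in coordinates -/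
noncomputable def F (k : ι) (x : M) (q : E × (ι → E)) : E × (ι → E) :=
  (q.2 k, fun i => -chr (A.G x) q.1 (q.2 k) (q.2 i))

lemma contDiffAt_F (k : ι) {x : M} {q : E × (ι → E)} (h : q.1 ∈ (A.φ x).target) :
    ContDiffAt ℝ ∞ (A.F k x) q := by
  refine ContDiffAt.prodMk (by fun_prop) ?_
  rw [contDiffAt_pi]
  intro i
  exact (((((A.lm x).chr_at h).comp q contDiffAt_fst).clm_apply (by fun_prop)).clm_apply
    (by fun_prop)).neg

lemma F_change (k : ι) {x x' : M} {q : E × (ι → E)} (h : q.1 ∈ A.W x x') :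
    fderiv ℝ (A.Ψ x x') q (A.F k x q) = A.F k x' (A.Ψ x x' q) := by
  rw [fderiv_Ψ h]
  simp only [F, Ψ]
  congr 1
  funext i
  rw [map_neg, (A.iso x x').chr h]
  abel

variable (A) in
/-- tautological form and connection form, with lowered indices -/
noncomputable def Θ (x : M) (q : E × (ι → E)) : (E × (ι → E)) →L[ℝ] (ι → ℝ) × (ι → ι → ℝ) :=
  LinearMap.toContinuousLinearMap
    { toFun := fun ξ => (fun i => A.G x q.1 ξ.1 (q.2 i),
        fun i j => A.G x q.1 (ξ.2 i + chr (A.G x) q.1 ξ.1 (q.2 i)) (q.2 j))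
      map_add' := by
        intro a b
        ext <;> simp
        ring
      map_smul' := by
        intro c a
        ext <;> simp
        ring }

lemma Θ_apply (x : M) (q ξ : E × (ι → E)) : A.Θ x q ξ = (fun i => A.G x q.1 ξ.1 (q.2 i),
    fun i j => A.G x q.1 (ξ.2 i + chr (A.G x) q.1 ξ.1 (q.2 i)) (q.2 j)) := rfl

lemma Θ_change {x x' : M} {q : E × (ι → E)} (h : q.1 ∈ A.W x x') (ξ : E × (ι → E)) :
    A.Θ x' (A.Ψ x x' q) (fderiv ℝ (A.Ψ x x') q ξ) = A.Θ x q ξ := by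
  rw [fderiv_Ψ h, Θ_apply, Θ_apply]
  simp only [Ψ]
  congr 1
  · funext i
    rw [(A.iso x x').pull _ h]
  · funext i j
    rw [(A.iso x x').pull _ h, map_add (fderiv ℝ (A.tr x x') q.1), (A.iso x x').chr h]
    congr 2
    abel

lemma contDiffAt_Θ {x : M} {q : E × (ι → E)} (h : q.1 ∈ (A.φ x).target) :
    ContDiffAt ℝ ∞ (A.Θ x) q := by
  have ho : IsOpen ((A.φ x).target ×ˢ (univ : Set (ι → E))) :=
    (A.φ x).open_target.prod isOpen_univ
  have : ContDiffOn ℝ ∞ (A.Θ (ι := ι) x) ((A.φ x).target ×ˢ univ) := by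
    rw [contDiffOn_clm_apply]
    intro ξ q hq
    apply ContDiffAt.contDiffWithinAt
    have hG : ContDiffAt ℝ ∞ (fun q : E × (ι → E) => A.G x q.1) q :=
      ((A.lm x).at hq.1).comp q contDiffAt_fst
    have hC : ContDiffAt ℝ ∞ (fun q : E × (ι → E) => chr (A.G x) q.1) q :=
      ((A.lm x).chr_at hq.1).comp q contDiffAt_fst
    simp only [Θ_apply]
    refine ContDiffAt.prodMk ?_ ?_
    · rw [contDiffAt_pi]
      intro i
      exact (hG.clm_apply contDiffAt_const).clm_apply (by fun_prop)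
    · rw [contDiffAt_pi]
      intro i
      rw [contDiffAt_pi]
      intro j
      exact (hG.clm_apply (contDiffAt_const.add ((hC.clm_apply contDiffAt_const).clm_apply
        (by fun_prop)))).clm_apply (by fun_prop)
  exact this.contDiffAt (ho.mem_nhds ⟨h, trivial⟩)

variable (A) in
/-- Gram matrix of a frame -/
noncomputable def gram (p : M × (ι → E)) (i j : ι) : ℝ :=
  A.G p.1 (A.φ p.1 p.1) (p.2 i) (p.2 j)

lemma gram_chart {x : M} {p : M × (ι → E)} (h : p.1 ∈ (A.φ x).source) (i j : ι) :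
    A.gram p i j = A.G x (A.κ x p).1 ((A.κ x p).2 i) ((A.κ x p).2 j) := by
  rw [gram, (A.iso p.1 x).pull _ (mem_W (A.mem _) h), tr_apply (A.mem _)]
  rfl

variable (A) in
/-- components of the covariant derivatives of the curvature in a frame -/
noncomputable def jet (m : ℕ) (p : M × (ι → E)) (I : Fin (4 + m) → ι) : ℝ :=
  covRiemann (A.G p.1) m (A.φ p.1 p.1) (fun j => p.2 (I j))

lemma jet_chart {x : M} (m : ℕ) {p : M × (ι → E)} (h : p.1 ∈ (A.φ x).source)
    (I : Fin (4 + m) → ι) :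
    A.jet m p I = covRiemann (A.G x) m (A.κ x p).1 (fun j => (A.κ x p).2 (I j)) := by
  rw [jet, (A.iso p.1 x).covRiemann m _ (mem_W (A.mem _) h), tr_apply (A.mem _)]
  rfl

end Atl

end Pool.Agent.H825Z.RSym
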