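import Pool.Agent.H825Z.RSym.Ext

/-! From pseudo-Riemannian manifolds to atlases of coordinate metrics. -/

set_option autoImplicit false
set_option maxSynthPendingDepth 3
set_option linter.unusedSectionVars false

open Set Filter Topology Function Metric
open scoped ContDiff NNReal Manifold

namespace Pool.Agent.H825Z.RSym

variable {E : Type*} [NormedAddCommGroup E] [NormedSpace ℝ E] [FiniteDimensional ℝ E]

section linalg

lemma exists_frame {B : E →L[ℝ] E →L[ℝ] ℝ} (hB : ∀ u, (∀ v, B u v = 0) → u = 0) {C : Set E}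
    (hC : Submodule.span ℝ C = ⊤) :
    ∃ (w : Fin (Module.finrank ℝ E) → E) (Gi : (Fin (Module.finrank ℝ E) → ℝ) →L[ℝ]
      (Fin (Module.finrank ℝ E) → ℝ)), ND E (fun i j => B (w i) (w j)) Gi ∧ ∀ k, w k ∈ C := by
  obtain ⟨b, hb, hsp, hli⟩ := exists_linearIndependent ℝ C
  let β : Module.Basis b ℝ E := Module.Basis.mk hli (by rw [Subtype.range_coe, hsp, hC])
  let β' := β.reindex (β.indexEquiv (Module.finBasis ℝ E))
  have hinj : Injective (gm (fun i j => B (β' i) (β' j))).toLinearMap := by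
    rw [injective_iff_map_eq_zero]
    intro h hh
    have h1 : ∑ l, h l • β' l = 0 := by
      apply hB
      intro v
      rw [← β'.sum_repr v, map_sum]
      refine Finset.sum_eq_zero fun i _ => ?_
      rw [map_smul, comb_apply (G₀ := fun i j => B (β' i) (β' j)) (fun _ _ => rfl)]
      have : gm (fun i j => B (β' i) (β' j)) h = 0 := hh
      simp [this]
    funext i
    exact Fintype.linearIndependent_iff.1 β'.linearIndependent h h1 i
  let e := LinearEquiv.ofBijective _ ⟨hinj, LinearMap.injective_iff_surjective.1 hinj⟩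
  refine ⟨β', e.symm.toContinuousLinearEquiv, ⟨by simp, fun h => e.symm_apply_apply h,
    fun h => e.apply_symm_apply h⟩, fun k => hb ?_⟩
  simp [β', β]

lemma span_open {C : Set E} (hC : IsOpen C) (hne : C.Nonempty) : Submodule.span ℝ C = ⊤ :=
  Submodule.eq_top_of_nonempty_interior' _
    (hne.mono (interior_maximal Submodule.subset_span hC))

lemma span_neg {B : E →L[ℝ] E →L[ℝ] ℝ} (h : ∃ v, B v v < 0) :
    Submodule.span ℝ {v | B v v < 0} = ⊤ :=
  span_open (isOpen_lt (by fun_prop) continuous_const) h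

lemma span_pos {B : E →L[ℝ] E →L[ℝ] ℝ} (h : ∃ v, 0 < B v v) :
    Submodule.span ℝ {v | 0 < B v v} = ⊤ :=
  span_open (isOpen_lt continuous_const (by fun_prop)) h

lemma span_null {B : E →L[ℝ] E →L[ℝ] ℝ} (hs : ∀ u v, B u v = B v u) (h : ∃ v, B v v < 0)
    (h' : ∃ v, 0 < B v v) : Submodule.span ℝ {v | B v v = 0} = ⊤ := by
  rw [eq_top_iff, ← span_neg h, Submodule.span_le]
  intro a ha
  obtain ⟨b, hb⟩ := h'
  have ha' : B a a < 0 := ha
  set D := √(B a b ^ 2 - B a a * B b b) with hD
  have hpos : 0 < B a b ^ 2 - B a a * B b b := by nlinarith [sq_nonneg (B a b)]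
  have hD0 : 0 < D := Real.sqrt_pos.2 hpos
  have hD2 : D ^ 2 = B a b ^ 2 - B a a * B b b := Real.sq_sqrt hpos.le
  have key : ∀ e : ℝ, e ^ 2 = D ^ 2 →
      B b b • a + (e - B a b) • b ∈ Submodule.span ℝ {v | B v v = 0} := by
    intro e he
    apply Submodule.subset_span
    simp only [mem_setOf_eq, map_add, map_smul, add_apply, smul_apply, smul_eq_mul, hs b a]
    rw [hD2] at he
    linear_combination (B b b) * he
  have h1 := key D rfl
  have h2 := key (-D) (by ring)
  have h3 := Submodule.add_mem _ (Submodule.smul_mem _ ((D + B a b) / (2 * D * B b b)) h1)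
    (Submodule.smul_mem _ ((D - B a b) / (2 * D * B b b)) h2)
  rw [smul_add, smul_add, smul_smul, smul_smul, smul_smul, smul_smul, add_add_add_comm,
    ← add_smul, ← add_smul] at h3
  have e1 : (D + B a b) / (2 * D * B b b) * B b b + (D - B a b) / (2 * D * B b b) * B b b = 1 := by
    field_simp; ring
  have e2 : (D + B a b) / (2 * D * B b b) * (D - B a b) +
      (D - B a b) / (2 * D * B b b) * (-D - B a b) = 0 := by
    field_simp; ring
  rw [e1, e2, one_smul, zero_smul, add_zero] at h3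
  exact h3

lemma eventually_nonneg {G : E → E →L[ℝ] E →L[ℝ] ℝ} {y₀ : E} (hc : ContinuousAt G y₀)
    (hs : ∀ u v, G y₀ u v = G y₀ v u) (hn : ∀ u, (∀ v, G y₀ u v = 0) → u = 0)
    (h : ∀ v, 0 ≤ G y₀ v v) : ∀ᶠ y in 𝓝 y₀, ∀ v, 0 ≤ G y v v := by
  have hpos : ∀ v ∈ sphere (0 : E) 1, 0 < G y₀ v v := by
    intro v hv
    refine lt_of_le_of_ne (h v) fun h0 => ?_
    have : v = 0 := by
      apply hn
      intro w
      by_contra hw
      have h1 := h ((-(G y₀ w w + 1) / (2 * G y₀ v w)) • v + w)
      simp only [map_add, map_smul, add_apply, smul_apply, smul_eq_mul, hs w v, ← h0] at h1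
      have h2 : -(G y₀ w w + 1) / (2 * G y₀ v w) * G y₀ v w = -(G y₀ w w + 1) / 2 := by
        field_simp
      rw [h2] at h1
      linarith
    simp [this] at hv
  obtain ⟨c, hc0, hc'⟩ := (isCompact_sphere (0 : E) 1).exists_forall_le'
    (f := fun v => G y₀ v v) (by fun_prop) hpos
  filter_upwards [hc.eventually (ball_mem_nhds _ hc0)] with y hy v
  rcases eq_or_ne v 0 with rfl | hv
  · simp
  have hn0 : 0 < ‖v‖ := norm_pos_iff.2 hv
  set u := ‖v‖⁻¹ • v with hu
  have hu1 : ‖u‖ = 1 := by rw [hu, norm_smul, norm_inv, norm_norm, inv_mul_cancel₀ hn0.ne']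
  have h1 := hc' u (by simpa using hu1)
  have h2 : ‖(G y - G y₀) u u‖ ≤ ‖G y - G y₀‖ * ‖u‖ * ‖u‖ := (G y - G y₀).le_opNorm₂ u u
  rw [hu1, mul_one, mul_one, Real.norm_eq_abs, sub_apply, sub_apply] at h2
  have h3 := mem_ball_iff_norm.1 hy
  have h4 : 0 ≤ G y u u := by linarith [(abs_le.1 h2).1]
  have h5 : v = ‖v‖ • u := by rw [hu, smul_smul, mul_inv_cancel₀ hn0.ne', one_smul]
  rw [h5]
  simp only [map_smul, smul_apply, smul_eq_mul]
  positivity

end linalg

variable {M : Type*} [TopologicalSpace M] [ChartedSpace E M] [IsManifold 𝓘(ℝ, E) ∞ M]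

lemma smooth_tr (x x' : M) : ContDiffOn ℝ ∞ (chartAt E x' ∘ (chartAt E x).symm)
    ((chartAt E x).target ∩ (chartAt E x).symm ⁻¹' (chartAt E x').source) := by
  rw [← contMDiffOn_iff_contDiffOn]
  exact (contMDiffOn_chart (I := 𝓘(ℝ, E)) (x := x')).comp
    ((contMDiffOn_chart_symm (I := 𝓘(ℝ, E)) (x := x)).mono inter_subset_left) fun y hy => hy.2

lemma hasFDerivAt_tr {x x' z : M} (h : z ∈ (chartAt E x).source) (h' : z ∈ (chartAt E x').source) :
    HasFDerivAt (chartAt E x' ∘ (chartAt E x).symm)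
      (fderiv ℝ (chartAt E x' ∘ (chartAt E x).symm) (chartAt E x z)) (chartAt E x z) :=
  (((smooth_tr x x').contDiffAt (((chartAt E x).isOpen_inter_preimage_symm
    (chartAt E x').open_source).mem_nhds ⟨(chartAt E x).map_source h, by
      simpa [(chartAt E x).left_inv h] using h'⟩)).differentiableAt (by simp)).hasFDerivAt

lemma chain_tr {x x' x'' z : M} (h : z ∈ (chartAt E x).source) (h' : z ∈ (chartAt E x').source)
    (h'' : z ∈ (chartAt E x'').source) (v : E) :
    fderiv ℝ (chartAt E x'' ∘ (chartAt E x').symm) (chartAt E x' z)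
      (fderiv ℝ (chartAt E x' ∘ (chartAt E x).symm) (chartAt E x z) v) =
      fderiv ℝ (chartAt E x'' ∘ (chartAt E x).symm) (chartAt E x z) v := by
  have h1 := hasFDerivAt_tr h h'
  have h2 := hasFDerivAt_tr h' h''
  have e : (chartAt E x' ∘ (chartAt E x).symm) (chartAt E x z) = chartAt E x' z := by
    simp [(chartAt E x).left_inv h]
  have h3 := HasFDerivAt.comp _ (e ▸ h2) h1
  have h4 : (chartAt E x'' ∘ (chartAt E x').symm) ∘ (chartAt E x' ∘ (chartAt E x).symm)
      =ᶠ[𝓝 (chartAt E x z)] (chartAt E x'' ∘ (chartAt E x).symm) := by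
    filter_upwards [((chartAt E x).isOpen_inter_preimage_symm
      (chartAt E x').open_source).mem_nhds ⟨(chartAt E x).map_source h, by
        simpa [(chartAt E x).left_inv h] using h'⟩] with y hy
    simp [(chartAt E x').left_inv hy.2]
  rw [(h3.congr_of_eventuallyEq h4.symm).fderiv, e]
  rfl

lemma self_tr {x z : M} (h : z ∈ (chartAt E x).source) (v : E) :
    fderiv ℝ (chartAt E x ∘ (chartAt E x).symm) (chartAt E x z) v = v := by
  have h4 : chartAt E x ∘ (chartAt E x).symm =ᶠ[𝓝 (chartAt E x z)] id := by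
    filter_upwards [(chartAt E x).open_target.mem_nhds ((chartAt E x).map_source h)] with y hy
    simp [(chartAt E x).right_inv hy]
  rw [h4.fderiv_eq]
  simp

/-- the metric at a point as a bilinear form on the model space -/
def PseudoMetric.gv (g : PseudoMetric E M) (x : M) : E →L[ℝ] E →L[ℝ] ℝ := g.val x

lemma mfderiv_symm {x : M} {y : E} (hy : y ∈ (chartAt E x).target) :
    (mfderiv 𝓘(ℝ, E) 𝓘(ℝ, E) (chartAt E x).symm y : E →L[ℝ] E) =
      fderiv ℝ (chartAt E ((chartAt E x).symm y) ∘ (chartAt E x).symm) y := by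
  have : MDifferentiableAt 𝓘(ℝ, E) 𝓘(ℝ, E) (chartAt E x).symm y :=
    ((contMDiffOn_chart_symm (I := 𝓘(ℝ, E)) (n := ∞) (x := x)).contMDiffAt
      ((chartAt E x).open_target.mem_nhds hy)).mdifferentiableAt (by simp)
  rw [this.mfderiv]
  simp [writtenInExtChartAt]

lemma inChart_apply (g : PseudoMetric E M) {x z : M} (hz : z ∈ (chartAt E x).source) (u v : E) :
    inChart g.val x (chartAt E x z) u v =
      g.gv z (fderiv ℝ (chartAt E z ∘ (chartAt E x).symm) (chartAt E x z) u)
        (fderiv ℝ (chartAt E z ∘ (chartAt E x).symm) (chartAt E x z) v) := by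
  have h := mfderiv_symm ((chartAt E x).map_source hz)
  have h2 : inChart g.val x (chartAt E x z) u v = g.gv ((chartAt E x).symm (chartAt E x z))
      ((mfderiv 𝓘(ℝ, E) 𝓘(ℝ, E) (chartAt E x).symm (chartAt E x z) : E →L[ℝ] E) u)
      ((mfderiv 𝓘(ℝ, E) 𝓘(ℝ, E) (chartAt E x).symm (chartAt E x z) : E →L[ℝ] E) v) := rfl
  rw [h2, h, (chartAt E x).left_inv hz]
  rfl

noncomputable def PseudoMetric.atl (g : PseudoMetric E M) : Atl E M where
  φ := fun x => chartAt E x
  mem := fun x => mem_chart_source E x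
  G := inChart g.val
  lm := fun x => by
    refine ⟨(chartAt E x).open_target, g.smooth x, fun y hy u v => ?_, fun y hy u hu => ?_⟩
    · rw [← (chartAt E x).right_inv hy, inChart_apply g ((chartAt E x).map_target hy),
        inChart_apply g ((chartAt E x).map_target hy)]
      exact g.symm _ _ _
    · have hz := (chartAt E x).map_target hy
      rw [← (chartAt E x).right_inv hy] at hu
      set z := (chartAt E x).symm y
      have hz' := mem_chart_source E z
      have h1 : fderiv ℝ (chartAt E z ∘ (chartAt E x).symm) (chartAt E x z) u = 0 := by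
        apply g.nondegenerate z
        intro v
        have := hu (fderiv ℝ (chartAt E x ∘ (chartAt E z).symm) (chartAt E z z) v)
        rw [inChart_apply g hz, chain_tr hz' hz hz', self_tr hz'] at this
        exact this
      rw [← self_tr hz u, ← chain_tr hz hz' hz, h1, map_zero]
  smooth := smooth_tr
  pull := by
    intro x x' y hy u v
    have hz := (chartAt E x).map_target hy.1
    have hz' : (chartAt E x).symm y ∈ (chartAt E x').source := hy.2
    have e := (chartAt E x).right_inv hy.1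
    set z := (chartAt E x).symm y
    have e2 : (chartAt E x' ∘ (chartAt E x).symm) y = chartAt E x' z := rfl
    rw [e2, ← e, inChart_apply g hz, inChart_apply g hz', chain_tr hz hz' (mem_chart_source E z),
      chain_tr hz hz' (mem_chart_source E z)]

lemma gram_atl (g : PseudoMetric E M) {ι : Type} (p : M × (ι → E)) (i j : ι) :
    g.atl.gram p i j = g.gv p.1 (p.2 i) (p.2 j) := by
  have h := mem_chart_source E p.1
  have := inChart_apply g h (p.2 i) (p.2 j)
  rw [self_tr h, self_tr h] at this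
  exact this

lemma velocity_eq {γ : ℝ → M} {t : ℝ} (h : MDifferentiableAt 𝓘(ℝ, ℝ) 𝓘(ℝ, E) γ t) :
    (velocity E γ t : E) = deriv (chartAt E (γ t) ∘ γ) t := by
  unfold velocity
  rw [h.mfderiv]
  simp [writtenInExtChartAt]
  rfl

lemma contDiffAt_chart_comp {γ : ℝ → M} {t : ℝ} (h : ContMDiffAt 𝓘(ℝ, ℝ) 𝓘(ℝ, E) ∞ γ t) {x : M}
    (hx : γ t ∈ (chartAt E x).source) : ContDiffAt ℝ ∞ (chartAt E x ∘ γ) t := by
  rw [← contMDiffAt_iff_contDiffAt]
  exact ((contMDiffOn_chart (I := 𝓘(ℝ, E)) (x := x)).contMDiffAt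
    ((chartAt E x).open_source.mem_nhds hx)).comp t h

variable (E) in
/-- the tangent lift of a curve -/
noncomputable def lift (γ : ℝ → M) (t : ℝ) : M × (Unit → E) := (γ t, fun _ => velocity E γ t)

lemma κ_lift (g : PseudoMetric E M) {γ : ℝ → M} {t : ℝ}
    (h : ContMDiffAt 𝓘(ℝ, ℝ) 𝓘(ℝ, E) ∞ γ t) {x : M} (hx : γ t ∈ (chartAt E x).source) :
    g.atl.κ x (lift E γ t) = ((chartAt E x ∘ γ) t, fun _ => deriv (chartAt E x ∘ γ) t) := by
  have h0 := mem_chart_source E (γ t)
  have h1 := ((contDiffAt_chart_comp h h0).differentiableAt (by simp)).hasDerivAt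
  have h2 := HasFDerivAt.comp_hasDerivAt (l := chartAt E x ∘ (chartAt E (γ t)).symm) t
    (hasFDerivAt_tr h0 hx) h1
  have h3 : chartAt E x ∘ γ =ᶠ[𝓝 t]
      (chartAt E x ∘ (chartAt E (γ t)).symm) ∘ (chartAt E (γ t) ∘ γ) := by
    filter_upwards [h.continuousAt.eventually ((chartAt E (γ t)).open_source.mem_nhds h0)] with s hs
    simp [(chartAt E (γ t)).left_inv hs]
  rw [(h2.congr_of_eventuallyEq h3).deriv, ← velocity_eq (h.mdifferentiableAt (by simp))]
  rfl

lemma sol_of_geodesic (g : PseudoMetric E M) {γ : ℝ → M} {J : Set ℝ} (hJ : IsOpen J)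
    (h : g.IsGeodesicOn γ J) {t : ℝ} (ht : t ∈ J) : g.atl.Sol () (lift E γ) t := by
  have hs : ∀ s ∈ J, ContMDiffAt 𝓘(ℝ, ℝ) 𝓘(ℝ, E) ∞ γ s :=
    fun s hs => h.1.contMDiffAt (hJ.mem_nhds hs)
  refine ⟨(hs t ht).continuousAt, ?_⟩
  have h0 := mem_chart_source E (γ t)
  set y := chartAt E (γ t) ∘ γ with hy
  have h1 : (fun s => g.atl.κ (γ t) (lift E γ s)) =ᶠ[𝓝 t] fun s => (y s, fun _ => deriv y s) := by
    filter_upwards [hJ.mem_nhds ht,
      (hs t ht).continuousAt.eventually ((chartAt E (γ t)).open_source.mem_nhds h0)] with s h1 h2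
    exact κ_lift g (hs s h1) h2
  have hy2 : ContDiffAt ℝ ∞ y t := contDiffAt_chart_comp (hs t ht) h0
  have d1 : HasDerivAt y (deriv y t) t := (hy2.differentiableAt (by simp)).hasDerivAt
  have d2 : HasDerivAt (deriv y) (deriv (deriv y) t) t := by
    have : ContDiffAt ℝ 1 (fun s => fderiv ℝ y s 1) t :=
      (hy2.fderiv_right (m := 1) two_le_inf).clm_apply contDiffAt_const
    exact (this.differentiableAt (by simp)).hasDerivAt
  refine ((HasDerivAt.prodMk d1 (hasDerivAt_pi.2 fun _ => d2)).congr_of_eventuallyEq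
    h1).congr_deriv ?_
  have h3 : g.atl.κ (γ t) (lift E γ t) = (y t, fun _ => deriv y t) := h1.eq_of_nhds
  change _ = g.atl.F () (γ t) (g.atl.κ (γ t) (lift E γ t))
  rw [h3]
  have h4 := h.2 t ht
  rw [christoffel_eq, ← eq_neg_iff_add_eq_zero] at h4
  simp only [Atl.F]
  rw [h4]
  rfl

lemma geodesic_of_sol (g : PseudoMetric E M) {c : ℝ → M × (Unit → E)} {J : Set ℝ} (hJ : IsOpen J)
    (h : ∀ t ∈ J, g.atl.Sol () c t) :
    g.IsGeodesicOn (fun t => (c t).1) J ∧ EqOn (lift E fun t => (c t).1) c J := by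
  have : CompleteSpace E := FiniteDimensional.complete ℝ E
  have key : ∀ t ∈ J, ContMDiffAt 𝓘(ℝ, ℝ) 𝓘(ℝ, E) ∞ (fun t => (c t).1) t ∧
      deriv (chartAt E (c t).1 ∘ fun t => (c t).1) t = (c t).2 () ∧
      deriv (deriv (chartAt E (c t).1 ∘ fun t => (c t).1)) t =
        -chr (inChart g.val (c t).1) (chartAt E (c t).1 (c t).1) ((c t).2 ()) ((c t).2 ()) := by
    intro t ht
    set x := (c t).1 with hx
    have e := Atl.sol_eventually_chart (A := g.atl) (x := x) (k := ()) (c := c) (t := t)
      (by filter_upwards [hJ.mem_nhds ht] using h) (g.atl.mem _)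
    set q : ℝ → E × (Unit → E) := fun s => g.atl.κ x (c s) with hq
    have hqt : q t = (chartAt E x x, (c t).2) := Atl.κ_self _
    obtain ⟨δ, hδ, hδ'⟩ := Metric.eventually_nhds_iff_ball.1 e
    have hsub : Icc (t - δ / 2) (t + δ / 2) ⊆ ball t δ := by
      rw [Real.ball_eq_Ioo]; exact Icc_subset_Ioo (by linarith) (by linarith)
    have hsm : ContDiffOn ℝ ((⊤ : ℕ∞) : WithTop ℕ∞) q (Icc (t - δ / 2) (t + δ / 2)) := by
      refine ODE.contDiffOn_enat_Icc_of_hasDerivWithinAt (f := fun _ => g.atl.F () x)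
        (u := {q | q.1 ∈ (g.atl.φ x).target}) (fun p hp => ?_)
        (fun s hs => (hδ' s (hsub hs)).2.hasDerivWithinAt)
        (fun s hs => Atl.κ_mem (hδ' s (hsub hs)).1)
      exact (ContDiffAt.comp (g := g.atl.F () x) p (Atl.contDiffAt_F () hp.2)
        contDiffAt_snd).contDiffWithinAt
    have hsm' : ContDiffAt ℝ ∞ q t :=
      hsm.contDiffAt (Icc_mem_nhds (by linarith) (by linarith))
    have hy : (chartAt E x ∘ fun t => (c t).1) = fun s => (q s).1 := rfl
    have hd : deriv (fun s => (q s).1) =ᶠ[𝓝 t] fun s => (q s).2 () := by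
      filter_upwards [e] with s hs
      exact (hd_fst hs.2).deriv
    refine ⟨?_, ?_, ?_⟩
    · have h1 : ContMDiffAt 𝓘(ℝ, ℝ) 𝓘(ℝ, E) ∞ ((chartAt E x).symm ∘ fun s => (q s).1) t :=
        ((contMDiffOn_chart_symm (I := 𝓘(ℝ, E)) (x := x)).contMDiffAt
          ((chartAt E x).open_target.mem_nhds (Atl.κ_mem (A := g.atl) (g.atl.mem _)))).comp t
          hsm'.fst.contMDiffAt
      refine h1.congr_of_eventuallyEq ?_
      filter_upwards [e] with s hs
      exact ((chartAt E x).left_inv hs.1).symm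
    · rw [hy, hd.eq_of_nhds, hqt]
    · rw [hy, hd.deriv_eq, (hasDerivAt_pi.1 (hd_snd e.self_of_nhds.2) ()).deriv]
      change (g.atl.F () x (q t)).2 () = _
      rw [hqt]
      rfl
  refine ⟨⟨fun t ht => (key t ht).1.contMDiffWithinAt, fun t ht => ?_⟩, fun t ht => ?_⟩
  · rw [(key t ht).2.2, (key t ht).2.1, christoffel_eq, neg_add_cancel]
  · simp only [lift]
    ext1
    · rfl
    · funext u
      exact (velocity_eq ((key t ht).1.mdifferentiableAt (by simp))).trans (key t ht).2.1

lemma lift_eqOn {γ γ' : ℝ → M} {J : Set ℝ} (hJ : IsOpen J) (h : EqOn γ' γ J) :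
    EqOn (lift E γ') (lift E γ) J := by
  intro t ht
  have he : γ' =ᶠ[𝓝 t] γ := h.eventuallyEq_of_mem (hJ.mem_nhds ht)
  simp only [lift]
  ext1
  · exact h ht
  · funext u
    have := he.mfderiv_eq (I := 𝓘(ℝ, ℝ)) (I' := 𝓘(ℝ, E))
    exact congrArg (fun L : ℝ →L[ℝ] E => L 1) this

lemma inext_lift (g : PseudoMetric E M) {γ : ℝ → M} {J : Set ℝ}
    (h : g.IsInextendibleGeodesic γ J) : g.atl.Inext (lift E γ) J := by
  refine ⟨h.1.1, h.1.2.1, h.1.2.2, fun t ht => sol_of_geodesic g h.1.1 h.2.1 ht, ?_⟩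
  intro c' J' h1 h2 h3 h4 h5
  exact h.2.2 (fun t => (c' t).1) J' ⟨h1, h2, h.1.2.2.mono h4⟩ (geodesic_of_sol g h1 h3).1 h4
    (fun t ht => congrArg Prod.fst (h5 ht))

lemma inext_base (g : PseudoMetric E M) {c : ℝ → M × (Unit → E)} {J : Set ℝ}
    (h : g.atl.Inext c J) : g.IsInextendibleGeodesic (fun t => (c t).1) J := by
  obtain ⟨h1, h2⟩ := geodesic_of_sol g h.isOpen h.sol
  refine ⟨⟨h.isOpen, h.ord, h.nonempty⟩, h1, fun γ' J' h3 h4 h5 h6 => ?_⟩
  exact h.max (lift E γ') J' h3.1 h3.2.1 (fun t ht => sol_of_geodesic g h3.1 h4 ht) h5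
    ((lift_eqOn h.isOpen h6).trans h2)

lemma sign_everywhere [ConnectedSpace M] (g : PseudoMetric E M) {σ : ℝ} (hσ : σ ≠ 0)
    (h : ∃ x v, σ * g.gv x v v < 0) (x : M) : ∃ v, σ * g.gv x v v < 0 := by
  have hcl : IsClopen {x | ∃ v, σ * g.gv x v v < 0} := by
    constructor
    · rw [← isOpen_compl_iff, isOpen_iff_mem_nhds]
      intro x hx
      simp only [mem_compl_iff, mem_setOf_eq, not_exists, not_lt] at hx
      have h0 := mem_chart_source E x
      have hy := (chartAt E x).map_source h0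
      have := eventually_nonneg (G := fun y => σ • inChart g.val x y) (y₀ := chartAt E x x)
        (((g.atl.lm x).at hy).continuousAt.const_smul σ)
        (fun u v => congrArg (fun a => σ * a) ((g.atl.lm x).symm _ hy u v))
        (fun u hu => (g.atl.lm x).nondeg _ hy u fun v => by
          have := hu v
          simp only [smul_apply, smul_eq_mul, mul_eq_zero, hσ, false_or] at this
          exact this)
        (fun v => by
          simp only [smul_apply, smul_eq_mul]
          rw [inChart_apply g h0, self_tr h0]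
          exact hx v)
      filter_upwards [((chartAt E x).continuousAt h0).eventually this,
        (chartAt E x).open_source.mem_nhds h0] with z hz hz'
      simp only [mem_compl_iff, mem_setOf_eq, not_exists, not_lt]
      intro v
      have := hz (fderiv ℝ (chartAt E x ∘ (chartAt E z).symm) (chartAt E z z) v)
      simp only [smul_apply, smul_eq_mul] at this
      rwa [inChart_apply g hz', chain_tr (mem_chart_source E z) hz' (mem_chart_source E z),
        self_tr (mem_chart_source E z)] at this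
    · rw [isOpen_iff_mem_nhds]
      rintro x ⟨v, hv⟩
      have h0 := mem_chart_source E x
      have hy := (chartAt E x).map_source h0
      have h1 : ContinuousAt (fun z => σ * inChart g.val x (chartAt E x z) v v) x :=
        continuousAt_const.mul (((ContinuousAt.comp (g := inChart g.val x)
          ((g.atl.lm x).at hy).continuousAt ((chartAt E x).continuousAt h0)).clm_apply
          continuousAt_const).clm_apply continuousAt_const)
      have h2 : σ * inChart g.val x (chartAt E x x) v v < 0 := by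
        rwa [inChart_apply g h0, self_tr h0]
      filter_upwards [h1.eventually (gt_mem_nhds h2), (chartAt E x).open_source.mem_nhds h0]
        with z hz hz'
      rw [inChart_apply g hz'] at hz
      exact ⟨_, hz⟩
  have := hcl.eq_univ h
  exact (this ▸ mem_univ x : x ∈ {x | ∃ v, σ * g.gv x v v < 0})

variable [T2Space M]

lemma complete_of (g : PseudoMetric E M) {r : ℕ} (hr : g.IsSymmetricOfOrder r) (C : ℝ → Prop)
    (hsp : ∀ x, Submodule.span ℝ {v | C (g.gv x v v)} = ⊤)
    (hc : ∀ (γ : ℝ → M) (J : Set ℝ), g.IsInextendibleGeodesic γ J →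
      (∀ t ∈ J, velocity E γ t ≠ 0 ∧ C (g.val (γ t) (velocity E γ t) (velocity E γ t))) →
        J = univ) : g.GeodesicallyComplete := by
  classical
  intro γ J h
  refine Atl.core (A := g.atl) (ι := Fin (Module.finrank ℝ E)) hr
    (fun p => p.2 () ≠ 0 ∧ C (g.gv p.1 (p.2 ()) (p.2 ()))) ?_ ?_ (inext_lift g h)
  · intro c J hJ hP
    refine hc _ J (inext_base g hJ) fun t ht => ?_
    have h2 : (velocity E (fun t => (c t).1) t : E) = (c t).2 () :=
      congrFun (congrArg Prod.snd ((geodesic_of_sol g hJ.isOpen hJ.sol).2 ht)) ()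
    have := hP t ht
    rw [← h2] at this
    exact this
  · intro x
    obtain ⟨w, Gi, hN, hw⟩ := exists_frame (B := g.gv x) (g.nondegenerate x) (hsp x)
    have e : g.atl.gram (x, w) = fun i j => g.gv x (w i) (w j) := by
      funext i j; exact gram_atl g _ i j
    refine ⟨w, Gi, e ▸ hN, fun p hp k => ⟨fun h0 => ?_, ?_⟩⟩
    · have h0' : p.2 k = 0 := h0
      have h1 : gm (fun i j => g.gv x (w i) (w j)) (Pi.single k 1) = 0 := by
        funext i
        rw [← e, ← hp, gm_apply]
        simp [Pi.single_apply, gram_atl, h0']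
      have h2 := hN.left (Pi.single k 1)
      rw [h1, map_zero] at h2
      simpa using congrFun h2 k
    · have := congrFun (congrFun hp k) k
      rw [gram_atl, gram_atl] at this
      change C (g.gv p.1 (p.2 k) (p.2 k))
      rw [this]
      exact hw k

theorem tfae [ConnectedSpace M] (g : PseudoMetric E M) (hg' : g.IsIndefinite) {r : ℕ}
    (hr : g.IsSymmetricOfOrder r) :
    List.TFAE [g.TimelikeComplete, g.LightlikeComplete, g.SpacelikeComplete,
      g.GeodesicallyComplete] := by
  have hg : ∀ x, (∃ v, g.gv x v v < 0) ∧ ∃ v, 0 < g.gv x v v := by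
    intro x
    have h1 : ∃ x v, g.gv x v v < 0 := hg'.1
    have h2 : ∃ x v, 0 < g.gv x v v := hg'.2
    constructor
    · simpa using sign_everywhere g one_ne_zero (by simpa using h1) x
    · simpa using sign_everywhere g (σ := -1) (by norm_num) (by simpa using h2) x
  tfae_have 4 → 1 := fun h γ J hJ _ => h γ J hJ
  tfae_have 4 → 2 := fun h γ J hJ _ => h γ J hJ
  tfae_have 4 → 3 := fun h γ J hJ _ => h γ J hJ
  tfae_have 1 → 4 := fun h => complete_of g hr (fun a => a < 0) (fun x => span_neg (hg x).1)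
    fun γ J hJ hP => h γ J hJ fun t ht => (hP t ht).2
  tfae_have 2 → 4 := fun h => complete_of g hr (fun a => a = 0)
    (fun x => span_null (g.symm x) (hg x).1 (hg x).2) h
  tfae_have 3 → 4 := fun h => complete_of g hr (fun a => 0 < a) (fun x => span_pos (hg x).2)
    fun γ J hJ hP => h γ J hJ fun t ht => (hP t ht).2
  tfae_finish

end Pool.Agent.H825Z.RSym
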