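import Mathlib

/-!
Pseudo-Riemannian metrics on manifolds, their Levi-Civita connection, the iterated covariant
derivatives of the curvature tensor, geodesics and causal completeness.  All local objects are
given by the classical coordinate formulas.
-/

set_option autoImplicit false

open Set
open scoped ContDiff Manifold

namespace Pool.Agent.H825Z.RSym

section Coordinates

variable {E : Type*} [NormedAddCommGroup E] [NormedSpace ℝ E]

/-- Christoffel symbols `Γ_y(u,v)` of a metric `G` given in coordinates (`G y a b = g_y(a,b)`):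
the vector determined by the Koszul formula
`g_y(Γ_y(u,v), w) = (∂_u g(v,w) + ∂_v g(u,w) - ∂_w g(u,v)) / 2`. -/
noncomputable def christoffel (G : E → E →L[ℝ] E →L[ℝ] ℝ) (y u v : E) : E :=
  (G y).inverse
    ((1 / 2 : ℝ) • (fderiv ℝ G y u v + fderiv ℝ G y v u - ((fderiv ℝ G y).flip u).flip v))

/-- The curvature `R_y(a,b)c = ∂_a Γ(b,c) - ∂_b Γ(a,c) + Γ(a,Γ(b,c)) - Γ(b,Γ(a,c))`. -/
noncomputable def curvature (G : E → E →L[ℝ] E →L[ℝ] ℝ) (y a b c : E) : E :=
  fderiv ℝ (fun z => christoffel G z b c) y a - fderiv ℝ (fun z => christoffel G z a c) y b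
    + christoffel G y a (christoffel G y b c) - christoffel G y b (christoffel G y a c)

/-- The Riemann tensor as a covariant 4-tensor, `Rm(a,b,c,d) = g(R(a,b)c,d)`. -/
noncomputable def riemann (G : E → E →L[ℝ] E →L[ℝ] ℝ) (y : E) (v : Fin 4 → E) : ℝ :=
  G y (curvature G y (v 0) (v 1) (v 2)) (v 3)

/-- The Levi-Civita covariant derivative of a covariant `k`-tensor field `T`:
`(∇T)(a, w₁, …, w_k) = ∂_a T(w₁, …, w_k) - ∑ⱼ T(w₁, …, Γ(a,wⱼ), …, w_k)`. -/
noncomputable def covDeriv (G : E → E →L[ℝ] E →L[ℝ] ℝ) {k : ℕ} (T : E → (Fin k → E) → ℝ)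
    (y : E) (v : Fin (k + 1) → E) : ℝ :=
  fderiv ℝ (fun z => T z (Fin.tail v)) y (v 0)
    - ∑ j, T y (Function.update (Fin.tail v) j (christoffel G y (v 0) (Fin.tail v j)))

/-- The `r`-fold covariant derivative `∇^r Rm` of the Riemann tensor. -/
noncomputable def covRiemann (G : E → E →L[ℝ] E →L[ℝ] ℝ) : (r : ℕ) → E → (Fin (4 + r) → E) → ℝ
  | 0 => riemann G
  | r + 1 => covDeriv G (covRiemann G r)

end Coordinates

section Manifold

variable {E : Type*} [NormedAddCommGroup E] [NormedSpace ℝ E]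
  {M : Type*} [TopologicalSpace M] [ChartedSpace E M]

/-- The coordinate expression of a field `g` of bilinear forms on the tangent spaces of `M` in the
chart `φ` at `x₀`: at `y` it is `(a,b) ↦ g_{φ⁻¹ y}(dφ⁻¹ a, dφ⁻¹ b)`. -/
noncomputable def inChart
    (g : Π x : M, TangentSpace 𝓘(ℝ, E) x →L[ℝ] TangentSpace 𝓘(ℝ, E) x →L[ℝ] ℝ) (x₀ : M) (y : E) :
    E →L[ℝ] E →L[ℝ] ℝ :=
  ContinuousLinearMap.bilinearComp (E := E) (F := E) (E' := E) (F' := E)
    (g ((chartAt E x₀).symm y))
    (mfderiv 𝓘(ℝ, E) 𝓘(ℝ, E) (chartAt E x₀).symm y)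
    (mfderiv 𝓘(ℝ, E) 𝓘(ℝ, E) (chartAt E x₀).symm y)

variable (E M) in
/-- A smooth pseudo-Riemannian metric: a field of symmetric nondegenerate bilinear forms on the
tangent spaces whose coordinate expression in every chart is smooth. -/
structure PseudoMetric where
  val : Π x : M, TangentSpace 𝓘(ℝ, E) x →L[ℝ] TangentSpace 𝓘(ℝ, E) x →L[ℝ] ℝ
  symm : ∀ x u v, val x u v = val x v u
  nondegenerate : ∀ x u, (∀ v, val x u v = 0) → u = 0
  smooth : ∀ x₀, ContDiffOn ℝ ∞ (inChart val x₀) (chartAt E x₀).target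

/-- `g` has indefinite signature: tangent vectors of negative square and tangent vectors of positive
square both occur (on a connected manifold they then occur at every point). -/
def PseudoMetric.IsIndefinite (g : PseudoMetric E M) : Prop :=
  (∃ x v, g.val x v v < 0) ∧ (∃ x v, 0 < g.val x v v)

/-- `g` is `r`-th symmetric: `∇^r R = 0` (in every chart). -/
def PseudoMetric.IsSymmetricOfOrder (g : PseudoMetric E M) (r : ℕ) : Prop :=
  ∀ x₀ : M, ∀ y ∈ (chartAt E x₀).target, ∀ v, covRiemann (inChart g.val x₀) r y v = 0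

variable (E) in
/-- The velocity vector `γ'(t)` of a curve. -/
noncomputable def velocity (γ : ℝ → M) (t : ℝ) : TangentSpace 𝓘(ℝ, E) (γ t) :=
  mfderiv 𝓘(ℝ, ℝ) 𝓘(ℝ, E) γ t (1 : ℝ)

/-- `γ` is a geodesic on `J`: it is smooth on `J` and at each `t ∈ J` its expression `y` in the
chart at `γ t` satisfies `y'' + Γ_y(y', y') = 0`. -/
def PseudoMetric.IsGeodesicOn (g : PseudoMetric E M) (γ : ℝ → M) (J : Set ℝ) : Prop :=
  ContMDiffOn 𝓘(ℝ, ℝ) 𝓘(ℝ, E) ∞ γ J ∧ ∀ t ∈ J,
    deriv (deriv (chartAt E (γ t) ∘ γ)) t +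
      christoffel (inChart g.val (γ t)) (chartAt E (γ t) (γ t))
        (deriv (chartAt E (γ t) ∘ γ) t) (deriv (chartAt E (γ t) ∘ γ) t) = 0

/-- `J` is a nonempty open interval (possibly unbounded). -/
def IsOpenInterval (J : Set ℝ) : Prop := IsOpen J ∧ J.OrdConnected ∧ J.Nonempty

/-- `γ` is an inextendible geodesic with domain the open interval `J`. -/
def PseudoMetric.IsInextendibleGeodesic (g : PseudoMetric E M) (γ : ℝ → M) (J : Set ℝ) : Prop :=
  IsOpenInterval J ∧ g.IsGeodesicOn γ J ∧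
    ∀ (γ' : ℝ → M) (J' : Set ℝ), IsOpenInterval J' → g.IsGeodesicOn γ' J' → J ⊆ J' →
      EqOn γ' γ J → J' = J

/-- Every inextendible timelike geodesic is defined on all of `ℝ`. -/
def PseudoMetric.TimelikeComplete (g : PseudoMetric E M) : Prop :=
  ∀ (γ : ℝ → M) (J : Set ℝ), g.IsInextendibleGeodesic γ J →
    (∀ t ∈ J, g.val (γ t) (velocity E γ t) (velocity E γ t) < 0) → J = univ

/-- Every inextendible lightlike geodesic is defined on all of `ℝ`. -/
def PseudoMetric.LightlikeComplete (g : PseudoMetric E M) : Prop :=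
  ∀ (γ : ℝ → M) (J : Set ℝ), g.IsInextendibleGeodesic γ J →
    (∀ t ∈ J, velocity E γ t ≠ 0 ∧ g.val (γ t) (velocity E γ t) (velocity E γ t) = 0) → J = univ

/-- Every inextendible spacelike geodesic is defined on all of `ℝ`. -/
def PseudoMetric.SpacelikeComplete (g : PseudoMetric E M) : Prop :=
  ∀ (γ : ℝ → M) (J : Set ℝ), g.IsInextendibleGeodesic γ J →
    (∀ t ∈ J, 0 < g.val (γ t) (velocity E γ t) (velocity E γ t)) → J = univ

/-- Every inextendible geodesic is defined on all of `ℝ`. -/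
def PseudoMetric.GeodesicallyComplete (g : PseudoMetric E M) : Prop :=
  ∀ (γ : ℝ → M) (J : Set ℝ), g.IsInextendibleGeodesic γ J → J = univ

end Manifold

end Pool.Agent.H825Z.RSym
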