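import Pool.Agent.H825Z.RSym.Flow

/-! Uniform estimates for coordinates of the second kind. -/

set_option autoImplicit false
set_option maxSynthPendingDepth 3
set_option linter.unusedSectionVars false

open Set Filter Topology Function Metric
open scoped ContDiff NNReal

namespace Pool.Agent.H825Z.RSym

variable {E M : Type*} [NormedAddCommGroup E] [NormedSpace ℝ E] [FiniteDimensional ℝ E]
  [TopologicalSpace M] {ι : Type} [Fintype ι]

noncomputable def gm (G₀ : ι → ι → ℝ) : (ι → ℝ) →L[ℝ] (ι → ℝ) :=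
  LinearMap.toContinuousLinearMap
    { toFun := fun h i => ∑ l, h l * G₀ l i
      map_add' := by intro a b; ext; simp [add_mul, Finset.sum_add_distrib]
      map_smul' := by intro a b; ext; simp [Finset.mul_sum, mul_assoc] }

lemma gm_apply (G₀ : ι → ι → ℝ) (h : ι → ℝ) (i : ι) : gm G₀ h i = ∑ l, h l * G₀ l i := rfl

variable (E) in
structure ND (G₀ : ι → ι → ℝ) (Gi : (ι → ℝ) →L[ℝ] (ι → ℝ)) : Prop where
  card : Fintype.card ι = Module.finrank ℝ E
  left : ∀ h, Gi (gm G₀ h) = h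
  right : ∀ h, gm G₀ (Gi h) = h

variable {G₀ : ι → ι → ℝ} {Gi : (ι → ℝ) →L[ℝ] (ι → ℝ)}

lemma comb_apply {B : E →L[ℝ] E →L[ℝ] ℝ} {u : ι → E} (hu : ∀ i j, B (u i) (u j) = G₀ i j)
    (h : ι → ℝ) (i : ι) : B (∑ l, h l • u l) (u i) = gm G₀ h i := by
  simp [gm_apply, hu]

lemma ND.ext (hN : ND E G₀ Gi) {B : E →L[ℝ] E →L[ℝ] ℝ} (hB : ∀ u, (∀ v, B u v = 0) → u = 0)
    {u : ι → E} (hu : ∀ i j, B (u i) (u j) = G₀ i j) {a b : E}
    (hab : ∀ i, B a (u i) = B b (u i)) : a = b := by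
  have hli : LinearIndependent ℝ u := by
    rw [Fintype.linearIndependent_iff]
    intro h hh
    have : gm G₀ h = 0 := by
      funext i
      rw [← comb_apply hu, hh]; simp
    have h2 := hN.left h
    rw [this, map_zero] at h2
    exact fun i => by rw [← h2]; rfl
  have hsp := hli.span_eq_top_of_card_eq_finrank' hN.card
  rw [← sub_eq_zero]
  apply hB
  intro v
  have hv : v ∈ Submodule.span ℝ (range u) := hsp ▸ Submodule.mem_top
  obtain ⟨c, rfl⟩ := (Submodule.mem_span_range_iff_exists_fun ℝ).1 hv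
  simp [hab]

lemma ND.expand (hN : ND E G₀ Gi) {B : E →L[ℝ] E →L[ℝ] ℝ} (hB : ∀ u, (∀ v, B u v = 0) → u = 0)
    {u : ι → E} (hu : ∀ i j, B (u i) (u j) = G₀ i j) (a : E) :
    a = ∑ l, Gi (fun i => B a (u i)) l • u l :=
  hN.ext hB hu fun i => by rw [comb_apply hu, hN.right]

lemma cur_sum (G : E → E →L[ℝ] E →L[ℝ] ℝ) (y a c d : E) (h : ι → ℝ) (u : ι → E) :
    G y (cur G y a (∑ l, h l • u l) c) d = ∑ l, h l * G y (cur G y a (u l) c) d := by
  simp only [cur, map_sum, map_smul, map_add, map_sub, sum_apply, smul_apply, add_apply,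
    sub_apply, smul_eq_mul, mul_add, mul_sub, Finset.sum_add_distrib, Finset.sum_sub_distrib]

lemma ode_ball {X : Type*} [NormedAddCommGroup X] [NormedSpace ℝ X] [FiniteDimensional ℝ X]
    {Φ : X → X} {x₀ : X} {δ B τ : ℝ} (hδ : 0 < δ) (hB : 0 ≤ B) (hτ : 0 < τ) (hm : B * τ ≤ δ)
    (hΦ : ∀ x ∈ closedBall x₀ δ, ContDiffAt ℝ 1 Φ x) (hb : ∀ x ∈ closedBall x₀ δ, ‖Φ x‖ ≤ B)
    (t₁ : ℝ) : ∃ α : ℝ → X, α t₁ = x₀ ∧ ∀ t ∈ Ioo (t₁ - τ) (t₁ + τ),
      α t ∈ closedBall x₀ δ ∧ HasDerivAt α (Φ (α t)) t := by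
  have : CompleteSpace X := FiniteDimensional.complete ℝ X
  have hl : LocallyLipschitzOn (closedBall x₀ δ) Φ := by
    intro x hx
    obtain ⟨K, S, hS, hK⟩ := (hΦ x hx).exists_lipschitzOnWith
    exact ⟨K, S, mem_nhdsWithin_of_mem_nhds hS, hK⟩
  obtain ⟨K, hK⟩ := hl.exists_lipschitzOnWith_of_compact (isCompact_closedBall x₀ δ)
  have hf : IsPicardLindelof (fun _ => Φ)
      (⟨t₁, by constructor <;> linarith⟩ : Icc (t₁ - τ) (t₁ + τ)) x₀ ⟨δ, hδ.le⟩ 0 ⟨B, hB⟩ K :=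
    IsPicardLindelof.of_time_independent hb hK (by
      show B * max (t₁ + τ - t₁) (t₁ - (t₁ - τ)) ≤ δ - 0
      simpa using hm)
  obtain ⟨α, hα⟩ := ODE.FunSpace.exists_isFixedPt_next hf (mem_closedBall_self le_rfl)
  refine ⟨α.compProj, ?_, fun t ht => ⟨α.compProj_mem_closedBall hf.mul_max_le, ?_⟩⟩
  · have := ODE.FunSpace.compProj_val (α := α) (t := ⟨t₁, by constructor <;> linarith⟩)
    rw [this, ← hα, ODE.FunSpace.next_apply₀]
  · have ht' := Ioo_subset_Icc_self ht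
    refine HasDerivWithinAt.hasDerivAt (s := Icc (t₁ - τ) (t₁ + τ)) ?_ (Icc_mem_nhds ht.1 ht.2)
    apply ODE.hasDerivWithinAt_picard_Icc (t₀ := t₁) (by constructor <;> linarith)
      hf.continuousOn_uncurry
      α.continuous_compProj.continuousOn (fun _ _ ↦ α.compProj_mem_closedBall hf.mul_max_le)
      x₀ ht' |>.congr_of_mem _ ht'
    intro t' ht'
    nth_rw 1 [← hα]
    rw [ODE.FunSpace.compProj_of_mem ht', ODE.FunSpace.next_apply]

namespace Atl

variable {A : Atl E M} {V : Type*} [NormedAddCommGroup V] [NormedSpace ℝ V]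

lemma variation_bound (hN : ND E G₀ Gi) {W : V × ℝ → M × (ι → E)} (hW : ∀ w, A.Sm 2 W w) {k : ι}
    (hs : ∀ z t, A.Sol k (fun s => W (z, s)) t) (hg : ∀ w, A.gram (W w) = G₀) (z h : V) {K : ℝ}
    (hK : 0 ≤ K) (hb : ∀ s, |s| ≤ 1 → ∀ I, |A.jet 0 (W (z, s)) I| ≤ K) {s : ℝ} (hs1 : |s| ≤ 1) :
    ‖A.ΘU W (z, s) (h, 0) - A.ΘU W (z, 0) (h, 0)‖ ≤
      (1 + Fintype.card ι * ‖Gi‖ * K) * Real.exp (1 + Fintype.card ι * ‖Gi‖ * K) *
        ‖A.ΘU W (z, 0) (h, 0)‖ * |s| := by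
  refine gronwall_two (f := fun s => A.ΘU W (z, s) (h, 0)) (by positivity)
    (fun t => variation hW hs z h t) (fun t ht => ?_) hs1
  set f := A.ΘU W (z, t) (h, 0) with hf
  set p := W (z, t) with hp
  have hy : A.φ p.1 p.1 ∈ (A.φ p.1).target := (A.φ p.1).map_source (A.mem _)
  have hu : ∀ i j, A.G p.1 (A.φ p.1 p.1) (p.2 i) (p.2 j) = G₀ i j :=
    fun i j => congrFun (congrFun (hg (z, t)) i) j
  set a := (fderiv ℝ (fun w => A.κ p.1 (W w)) (z, t) (h, 0)).1 with ha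
  have h1 : f.1 = fun i => A.G p.1 (A.φ p.1 p.1) a (p.2 i) := by
    simp only [hf, ΘU, ContinuousLinearMap.comp_apply, Θ_apply, ← hp, κ_self, ha]
  have h2 := hN.expand ((A.lm p.1).nondeg _ hy) hu a
  rw [← h1] at h2
  have h0 : 0 ≤ (Fintype.card ι : ℝ) * ‖Gi‖ * K * ‖f‖ := by positivity
  rw [Prod.norm_def, add_mul, one_mul]
  apply max_le
  · refine le_trans ?_ (le_add_of_nonneg_right h0)
    exact (norm_le_pi_norm f.2 k).trans (norm_snd_le f)
  · refine le_trans ?_ (le_add_of_nonneg_left (norm_nonneg _))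
    rw [pi_norm_le_iff_of_nonneg h0]
    intro i
    rw [pi_norm_le_iff_of_nonneg h0]
    intro j
    simp only
    rw [h2, cur_sum]
    refine (norm_sum_le _ _).trans ?_
    have h3 : ∀ l, ‖Gi f.1 l * A.G p.1 (A.φ p.1 p.1)
        (cur (A.G p.1) (A.φ p.1 p.1) (p.2 k) (p.2 l) (p.2 i)) (p.2 j)‖ ≤ ‖Gi‖ * ‖f‖ * K := by
      intro l
      rw [norm_mul]
      refine mul_le_mul ((norm_le_pi_norm _ l).trans ((Gi.le_opNorm _).trans ?_)) ?_
        (norm_nonneg _) (by positivity)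
      · gcongr; exact norm_fst_le f
      · have := hb t ht ![k, l, i, j]
        rw [jet] at this
        change |riemann _ _ _| ≤ K at this
        rw [(A.lm p.1).riemann_eq hy] at this
        exact this
    refine (Finset.sum_le_sum fun l _ => h3 l).trans (le_of_eq ?_)
    simp
    ring

variable {Fl : ι → M × (ι → E) → ℝ → M × (ι → E)}

/-- composition of flows -/
def cmp (Fl : ι → M × (ι → E) → ℝ → M × (ι → E)) (p : M × (ι → E)) :
    List ι → (ι → ℝ) → M × (ι → E)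
  | [], _ => p
  | k :: L, s => Fl k (cmp Fl p L s) (s k)

variable [T2Space M]

lemma IsFlow.gram_cmp (hF : A.IsFlow G₀ Fl) {p : M × (ι → E)} (hp : A.gram p = G₀) (L : List ι)
    (s : ι → ℝ) : A.gram (cmp Fl p L s) = G₀ := by
  induction L with
  | nil => exact hp
  | cons k L ih => exact hF.gram k ih _

lemma IsFlow.cmp_zero (hF : A.IsFlow G₀ Fl) {p : M × (ι → E)} (hp : A.gram p = G₀) (L : List ι) :
    cmp Fl p L 0 = p := by
  induction L with
  | nil => rfl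
  | cons k L ih => simp only [cmp, ih, Pi.zero_apply, hF.zero k p hp]

lemma IsFlow.sm_cmp (hF : A.IsFlow G₀ Fl) {p : M × (ι → E)} (hp : A.gram p = G₀) (L : List ι)
    (s : ι → ℝ) : A.Sm 2 (cmp Fl p L) s := by
  induction L generalizing s with
  | nil => exact ⟨continuousAt_const, contDiffAt_const (c := A.κ p.1 p)⟩
  | cons k L ih =>
    exact Sm.comp (U := fun w : (ι → ℝ) × ℝ => Fl k (cmp Fl p L w.1) w.2) (j := fun s => (s, s k))
      (hF.sm k (hF.gram_cmp hp L) (ih s) (s k)) (by fun_prop)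

lemma IsFlow.bnd (hF : A.IsFlow G₀ Fl) {r : ℕ} (hr : ∀ (p : M × (ι → E)) I, A.jet r p I = 0)
    {K : ℝ} (hK : 0 ≤ K) (k : ι) {p : M × (ι → E)} (hp : A.gram p = G₀) (hb : A.Bnd r K p) {t : ℝ}
    (ht : |t| ≤ 1) : A.Bnd r (K * 2 ^ r) (Fl k p t) := by
  have := bnd_sol hr ordConnected_univ (fun t _ => hF.sol k p hp t) hK zero_le_one (mem_univ 0)
    (by rwa [hF.zero k p hp]) (mem_univ t) (by simpa using ht)
  rwa [one_add_one_eq_two] at this

lemma IsFlow.bnd_cmp (hF : A.IsFlow G₀ Fl) {r : ℕ} (hr : ∀ (p : M × (ι → E)) I, A.jet r p I = 0)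
    {K : ℝ} (hK : 0 ≤ K) {p : M × (ι → E)} (hp : A.gram p = G₀) (hb : A.Bnd r K p) (L : List ι)
    {s : ι → ℝ} (hs : ‖s‖ ≤ 1) : A.Bnd r (K * (2 ^ r) ^ L.length) (cmp Fl p L s) := by
  induction L with
  | nil => simpa [cmp] using hb
  | cons k L ih =>
    rw [List.length_cons, pow_succ, ← mul_assoc]
    exact hF.bnd hr (by positivity) k (hF.gram_cmp hp L s) ih ((norm_le_pi_norm s k).trans hs)

omit [T2Space M] in
lemma ΘU_sol {k : ι} {c : ℝ → M × (ι → E)} {t : ℝ} (hc : A.Sol k c t) :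
    A.ΘU c t 1 = (A.gram (c t) k, 0) := by
  simp only [ΘU, ContinuousLinearMap.comp_apply]
  rw [hc.2.hasFDerivAt.fderiv]
  simp only [ContinuousLinearMap.toSpanSingleton_apply, one_smul, Θ_apply, F, κ_self,
    neg_add_cancel, map_zero, zero_apply]
  rfl

lemma IsFlow.estimate (hF : A.IsFlow G₀ Fl) (hN : ND E G₀ Gi) {r : ℕ}
    (hr : ∀ (p : M × (ι → E)) I, A.jet r p I = 0) {K : ℝ} (hK : 0 ≤ K) (L : List ι) :
    ∀ ε > (0 : ℝ), ∃ δ > (0 : ℝ), δ ≤ 1 ∧ ∀ p, A.gram p = G₀ → A.Bnd r K p → ∀ s, ‖s‖ ≤ δ → ∀ h,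
      ‖A.ΘU (cmp Fl p L) s h -
        (L.map fun k => h k • ((G₀ k, 0) : (ι → ℝ) × (ι → ι → ℝ))).sum‖ ≤ ε * ‖h‖ := by
  induction L with
  | nil =>
    intro ε hε
    refine ⟨1, one_pos, le_rfl, fun p _ _ s _ h => ?_⟩
    have : A.ΘU (cmp Fl p []) s h = 0 := by simp [ΘU, cmp]
    simp only [this, List.map_nil, List.sum_nil, sub_zero, norm_zero]
    positivity
  | cons k L ih =>
    intro ε hε
    obtain ⟨δ, hδ, hδ1, h1⟩ := ih (ε / 2) (by positivity)
    set K' := K * (2 ^ r) ^ L.length * 2 ^ r with hK'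
    have hK'0 : 0 ≤ K' := by positivity
    set C := (1 + Fintype.card ι * ‖Gi‖ * K') * Real.exp (1 + Fintype.card ι * ‖Gi‖ * K') with hC
    have hC0 : 0 < C := by positivity
    set B := ε / 2 + L.length * ‖G₀‖ with hB
    have hB0 : 0 < B := by positivity
    refine ⟨min δ (ε / 2 / (C * B)), by positivity, (min_le_left _ _).trans hδ1,
      fun p hp hb s hs h => ?_⟩
    have hs1 : ‖s‖ ≤ δ := hs.trans (min_le_left _ _)
    have hsk : |s k| ≤ ‖s‖ := norm_le_pi_norm s k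
    set W : (ι → ℝ) × ℝ → M × (ι → E) := fun w => Fl k (cmp Fl p L w.1) w.2 with hW
    have hWs : ∀ w, A.Sm 2 W w := fun w => hF.sm k (hF.gram_cmp hp L) (hF.sm_cmp hp L w.1) w.2
    have hsol : ∀ z t, A.Sol k (fun s => W (z, s)) t :=
      fun z t => hF.sol k _ (hF.gram_cmp hp L z) t
    have hg : ∀ w, A.gram (W w) = G₀ := fun w => hF.gram k (hF.gram_cmp hp L _) _
    have hv := variation_bound hN hWs hsol hg s h hK'0 (fun t ht I =>
      hF.bnd hr (by positivity) k (hF.gram_cmp hp L s) (hF.bnd_cmp hr hK hp hb L (hs1.trans hδ1))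
        ht 0 (Nat.zero_le _) I) (hsk.trans (hs1.trans hδ1))
    have e1 : A.ΘU (cmp Fl p (k :: L)) s h = A.ΘU W (s, s k) (h, h k) :=
      ΘU_comp (U := W) (j := fun s : ι → ℝ => (s, s k)) (hWs _)
        ((ContinuousLinearMap.id ℝ (ι → ℝ)).prod (ContinuousLinearMap.proj k)).hasFDerivAt h
    have e2 : A.ΘU W (s, s k) (0, 1) = (G₀ k, 0) := by
      have := ΘU_comp (U := W) (j := fun t : ℝ => (s, t)) (z := s k) (hWs _)
        (hasFDerivAt_prodMk_right s (s k)) 1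
      rw [ΘU_sol (hsol s (s k)), hg] at this
      exact this.symm
    have e3 : A.ΘU W (s, 0) (h, 0) = A.ΘU (cmp Fl p L) s h := by
      have := ΘU_comp (U := W) (j := fun z : ι → ℝ => (z, (0 : ℝ))) (z := s) (hWs _)
        (hasFDerivAt_prodMk_left s (0 : ℝ)) h
      have e : (fun z => W (z, 0)) = cmp Fl p L :=
        funext fun z => hF.zero k _ (hF.gram_cmp hp L z)
      rw [e] at this
      exact this.symm
    have e4 : A.ΘU W (s, s k) (h, h k) = A.ΘU W (s, s k) (h, 0) + h k • (G₀ k, 0) := by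
      rw [← e2, ← map_smul, ← map_add]
      simp
    have h2 := h1 p hp hb s hs1 h
    set S := (L.map fun k => h k • ((G₀ k, 0) : (ι → ℝ) × (ι → ι → ℝ))).sum with hS
    have hSn : ‖S‖ ≤ L.length * ‖G₀‖ * ‖h‖ := by
      rw [hS]
      clear * -
      induction L with
      | nil => simp
      | cons l L ih =>
        rw [List.map_cons, List.sum_cons, List.length_cons]
        refine (norm_add_le _ _).trans ?_
        have : ‖h l • ((G₀ l, 0) : (ι → ℝ) × (ι → ι → ℝ))‖ ≤ ‖G₀‖ * ‖h‖ := by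
          rw [norm_smul, mul_comm, Prod.norm_def]
          simp only [norm_zero]
          rw [max_eq_left (norm_nonneg _)]
          exact mul_le_mul (norm_le_pi_norm G₀ l) (norm_le_pi_norm h l) (norm_nonneg _)
            (norm_nonneg _)
        push_cast
        linarith
    rw [e3] at hv
    have h3 : ‖A.ΘU (cmp Fl p L) s h‖ ≤ B * ‖h‖ := by
      have := norm_le_norm_sub_add (A.ΘU (cmp Fl p L) s h) S
      rw [hB, add_mul]
      linarith
    have h4 : C * ‖A.ΘU (cmp Fl p L) s h‖ * |s k| ≤ ε / 2 * ‖h‖ := by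
      have h5 : |s k| ≤ ε / 2 / (C * B) := hsk.trans (hs.trans (min_le_right _ _))
      calc C * ‖A.ΘU (cmp Fl p L) s h‖ * |s k| ≤ C * (B * ‖h‖) * (ε / 2 / (C * B)) := by gcongr
        _ = ε / 2 * ‖h‖ := by field_simp
    rw [e1, e4, List.map_cons, List.sum_cons]
    have e5 : A.ΘU W (s, s k) (h, 0) + h k • (G₀ k, 0) - (h k • (G₀ k, 0) + S) =
        (A.ΘU W (s, s k) (h, 0) - A.ΘU (cmp Fl p L) s h) + (A.ΘU (cmp Fl p L) s h - S) := by abel
    rw [e5]
    refine (norm_add_le _ _).trans ?_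
    linarith

end Atl

end Pool.Agent.H825Z.RSym
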