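import Pool.Agent.H825Z.RSym.Est

/-! Extension of geodesics for a uniform time, and the core theorem. -/

set_option autoImplicit false
set_option maxSynthPendingDepth 3
set_option linter.unusedSectionVars false

open Set Filter Topology Function Metric
open scoped ContDiff NNReal

namespace Pool.Agent.H825Z.RSym

variable {E M : Type*} [NormedAddCommGroup E] [NormedSpace ℝ E] [FiniteDimensional ℝ E]
  [TopologicalSpace M] {ι : Type} [Fintype ι] {G₀ : ι → ι → ℝ} {Gi : (ι → ℝ) →L[ℝ] (ι → ℝ)}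

namespace Atl

variable {A : Atl E M} {Fl : ι → M × (ι → E) → ℝ → M × (ι → E)}

lemma sol_of_ode (hN : ND E G₀ Gi) {U : (ι → ℝ) → M × (ι → E)} (hU : ∀ s, A.Sm 2 U s)
    (hg : ∀ s, A.gram (U s) = G₀) {s y : ℝ → ι → ℝ} {s' y' : ι → ℝ} {t : ℝ}
    (hs : HasDerivAt s s' t) (hy : HasDerivAt y y' t)
    (h1 : (A.ΘU U (s t) s').1 = gm G₀ (y t))
    (h2 : gm G₀ y' = -fun j => ∑ i, y t i * (A.ΘU U (s t) s').2 i j) :
    A.Sol () (fun t => ((U (s t)).1, fun _ : Unit => ∑ l, y t l • (U (s t)).2 l)) t := by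
  refine ⟨ContinuousAt.comp (g := fun z => (U z).1) (hU _).1 hs.continuousAt, ?_⟩
  set x := (U (s t)).1 with hx
  set Q : (ι → ℝ) → E × (ι → E) := fun w => A.κ x (U w) with hQ
  have hQt : Q (s t) = (A.φ x x, (U (s t)).2) := κ_self _
  have hκ : ∀ τ, A.κ x ((U (s τ)).1, fun _ : Unit => ∑ l, y τ l • (U (s τ)).2 l) =
      ((Q (s τ)).1, fun _ : Unit => ∑ l, y τ l • (Q (s τ)).2 l) := by
    intro τ
    simp only [κ, hQ, map_sum, map_smul]
  simp only [hκ]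
  set D := fderiv ℝ Q (s t) s' with hD
  have hQd : HasDerivAt (fun τ => Q (s τ)) D t :=
    HasFDerivAt.comp_hasDerivAt (l := Q) t ((hU _).2.differentiableAt (by simp)).hasFDerivAt hs
  have hΘ : A.ΘU U (s t) s' = A.Θ x (Q (s t)) D := rfl
  rw [hΘ, Θ_apply, hQt] at h1 h2
  simp only at h1 h2
  have hy0 : A.φ x x ∈ (A.φ x).target := (A.φ x).map_source (A.mem _)
  have hnd := (A.lm x).nondeg _ hy0
  set u := (U (s t)).2 with hu
  have hgr : ∀ i j, A.G x (A.φ x x) (u i) (u j) = G₀ i j :=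
    fun i j => congrFun (congrFun (hg (s t)) i) j
  have ha : D.1 = ∑ l, y t l • u l :=
    hN.ext hnd hgr fun i => by rw [comb_apply hgr, ← h1]
  have hv : HasDerivAt (fun τ => ∑ l, y τ l • (Q (s τ)).2 l)
      (∑ l, (y t l • D.2 l + y' l • (Q (s t)).2 l)) t :=
    HasDerivAt.fun_sum fun l _ =>
      (hasDerivAt_pi.1 hy l).smul (hasDerivAt_pi.1 (hd_snd hQd) l)
  refine (HasDerivAt.prodMk (hd_fst hQd) (hasDerivAt_pi.2 fun _ => hv)).congr_deriv ?_
  simp only [F, hQt]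
  rw [← ha]
  congr 1
  funext _
  rw [eq_neg_iff_add_eq_zero]
  refine hN.ext hnd hgr fun j => ?_
  have h3 := congrFun h2 j
  rw [← comb_apply hgr] at h3
  nth_rewrite 2 [ha]
  simp only [Pi.neg_apply, map_add, add_apply, mul_add, Finset.sum_add_distrib, map_sum,
    map_smul, sum_apply, smul_apply, smul_eq_mul, map_zero, zero_apply] at h3 ⊢
  linarith

variable [T2Space M]

lemma IsFlow.ext_geo (hF : A.IsFlow G₀ Fl) (hN : ND E G₀ Gi) {r : ℕ}
    (hr : ∀ (p : M × (ι → E)) I, A.jet r p I = 0) {K R : ℝ} (hK : 0 ≤ K) (hR : 0 ≤ R) :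
    ∃ τ > (0 : ℝ), ∀ p, A.gram p = G₀ → A.Bnd r K p → ∀ y₀ : ι → ℝ, ‖y₀‖ ≤ R → ∀ t₁ : ℝ,
      ∃ γ : ℝ → M × (Unit → E), γ t₁ = (p.1, fun _ => ∑ l, y₀ l • p.2 l) ∧
        ∀ t ∈ Ioo (t₁ - τ) (t₁ + τ), A.Sol () γ t := by
  classical
  set L : List ι := Finset.univ.toList with hL
  obtain ⟨δ, hδ, hδ1, hest⟩ := hF.estimate hN hr hK L (1 / (2 * (‖Gi‖ + 1))) (by positivity)
  set B := 2 * (R + 1) + ‖Gi‖ * (Fintype.card ι * ((R + 1) * (2 * (R + 1)))) with hB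
  have hB0 : 0 < B := by positivity
  refine ⟨δ / B, by positivity, fun p hp hb y₀ hy₀ t₁ => ?_⟩
  set U := cmp Fl p L with hU
  have hUs : ∀ s, A.Sm 2 U s := hF.sm_cmp hp L
  have hsum : ∀ h : ι → ℝ, (L.map fun k => h k • ((G₀ k, 0) : (ι → ℝ) × (ι → ι → ℝ))).sum =
      (gm G₀ h, 0) := by
    intro h
    rw [hL, Finset.sum_map_toList]
    ext i j
    · simp [Prod.fst_sum, gm_apply]
    · simp [Prod.snd_sum]
  replace hest := hest p hp hb
  simp only [hsum] at hest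
  let a : (ι → ℝ) → (ι → ℝ) →L[ℝ] (ι → ℝ) := fun s =>
    Gi ∘L ContinuousLinearMap.fst ℝ _ _ ∘L A.ΘU U s
  have hε : ‖Gi‖ * (1 / (2 * (‖Gi‖ + 1))) ≤ 1 / 2 := by
    rw [mul_one_div, div_le_div_iff₀ (by positivity) (by positivity)]
    linarith
  have ha : ∀ s, ‖s‖ ≤ δ → ∀ h, ‖h - a s h‖ ≤ 1 / 2 * ‖h‖ := by
    intro s hs h
    have : h - a s h = -Gi (A.ΘU U s h - (gm G₀ h, 0)).1 := by
      simp [a, hN.left]
    rw [this, norm_neg]
    refine (Gi.le_opNorm _).trans ?_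
    calc ‖Gi‖ * ‖(A.ΘU U s h - (gm G₀ h, 0)).1‖ ≤ ‖Gi‖ * (1 / (2 * (‖Gi‖ + 1)) * ‖h‖) := by
          gcongr; exact (norm_fst_le _).trans (hest s hs h)
      _ ≤ 1 / 2 * ‖h‖ := by rw [← mul_assoc]; gcongr
  have hunit : ∀ s, ‖s‖ ≤ δ → IsUnit (a s) := by
    intro s hs
    have : ‖1 - a s‖ < 1 :=
      lt_of_le_of_lt (ContinuousLinearMap.opNorm_le_bound _ (by norm_num) (ha s hs)) (by norm_num)
    simpa using isUnit_one_sub_of_norm_lt_one this
  have hinv : ∀ s, ‖s‖ ≤ δ → ∀ y, a s (Ring.inverse (a s) y) = y := by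
    intro s hs y
    have := Ring.mul_inverse_cancel _ (hunit s hs)
    exact congrArg (fun L : (ι → ℝ) →L[ℝ] (ι → ℝ) => L y) this
  have hinvn : ∀ s, ‖s‖ ≤ δ → ∀ y, ‖Ring.inverse (a s) y‖ ≤ 2 * ‖y‖ := by
    intro s hs y
    have h1 := ha s hs (Ring.inverse (a s) y)
    rw [hinv s hs] at h1
    have := norm_le_norm_sub_add (Ring.inverse (a s) y) y
    linarith
  let Φ : (ι → ℝ) × (ι → ℝ) → (ι → ℝ) × (ι → ℝ) := fun w =>
    (Ring.inverse (a w.1) w.2,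
      -Gi (fun j => ∑ i, w.2 i * (A.ΘU U w.1 (Ring.inverse (a w.1) w.2)).2 i j))
  have hball : ∀ w ∈ closedBall ((0 : ι → ℝ), y₀) δ, ‖w.1‖ ≤ δ ∧ ‖w.2‖ ≤ R + 1 := by
    intro w hw
    rw [← closedBall_prod_same] at hw
    refine ⟨by simpa using hw.1, ?_⟩
    have h1 := mem_closedBall_iff_norm.1 hw.2
    have := norm_le_norm_sub_add w.2 y₀
    linarith
  have hc1 : ∀ w ∈ closedBall ((0 : ι → ℝ), y₀) δ, ContDiffAt ℝ 1 Φ w := by
    intro w hw
    have hΘ : ContDiffAt ℝ 1 (fun w : (ι → ℝ) × (ι → ℝ) => A.ΘU U w.1) w :=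
      (contDiffAt_ΘU hUs w.1).comp w contDiffAt_fst
    have h1 : ContDiffAt ℝ 1 (fun w : (ι → ℝ) × (ι → ℝ) => a w.1) w :=
      contDiffAt_const.clm_comp (contDiffAt_const.clm_comp hΘ)
    have h2 : ContDiffAt ℝ 1 (fun w : (ι → ℝ) × (ι → ℝ) => Ring.inverse (a w.1) w.2) w := by
      refine ContDiffAt.clm_apply ?_ contDiffAt_snd
      obtain ⟨u, hu⟩ := hunit _ (hball w hw).1
      exact ContDiffAt.comp (g := Ring.inverse) w (hu ▸ contDiffAt_ringInverse ℝ u) h1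
    refine h2.prodMk (ContDiffAt.neg (Gi.contDiff.contDiffAt.comp w ?_))
    rw [contDiffAt_pi]
    intro j
    refine ContDiffAt.sum fun i _ => ContDiffAt.mul (by fun_prop) ?_
    exact contDiffAt_pi.1 (contDiffAt_pi.1 (hΘ.clm_apply h2).snd i) j
  have hc2 : ∀ w ∈ closedBall ((0 : ι → ℝ), y₀) δ, ‖Φ w‖ ≤ B := by
    intro w hw
    obtain ⟨h1, h2⟩ := hball w hw
    have h3 : ‖Ring.inverse (a w.1) w.2‖ ≤ 2 * (R + 1) := (hinvn _ h1 _).trans (by linarith)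
    have h4 : ‖(A.ΘU U w.1 (Ring.inverse (a w.1) w.2)).2‖ ≤ 2 * (R + 1) := by
      have := (norm_snd_le _).trans (hest _ h1 (Ring.inverse (a w.1) w.2))
      simp only [Prod.snd_sub, sub_zero] at this
      refine this.trans ((mul_le_of_le_one_left (norm_nonneg _) ?_).trans h3)
      rw [div_le_one (by positivity)]
      linarith [norm_nonneg Gi]
    rw [Prod.norm_def]
    apply max_le
    · exact h3.trans (le_add_of_nonneg_right (by positivity))
    · refine le_trans ?_ (le_add_of_nonneg_left (by positivity))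
      simp only [Φ, norm_neg]
      refine (Gi.le_opNorm _).trans ?_
      gcongr
      rw [pi_norm_le_iff_of_nonneg (by positivity)]
      intro j
      refine (norm_sum_le _ _).trans ?_
      have : ∀ i, ‖w.2 i * (A.ΘU U w.1 (Ring.inverse (a w.1) w.2)).2 i j‖ ≤
          (R + 1) * (2 * (R + 1)) := by
        intro i
        rw [norm_mul]
        exact mul_le_mul ((norm_le_pi_norm _ i).trans h2)
          ((norm_le_pi_norm _ j).trans ((norm_le_pi_norm _ i).trans h4)) (norm_nonneg _)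
          (by positivity)
      refine (Finset.sum_le_sum fun i _ => this i).trans (le_of_eq ?_)
      simp
  obtain ⟨α, hα0, hα⟩ := ode_ball (Φ := Φ) (x₀ := (0, y₀)) (τ := δ / B) hδ hB0.le (by positivity)
    (le_of_eq (by field_simp)) hc1 hc2 t₁
  · refine ⟨fun t => ((U (α t).1).1, fun _ : Unit => ∑ l, (α t).2 l • (U (α t).1).2 l), ?_,
      fun t ht => ?_⟩
    · simp only [hα0, hU, hF.cmp_zero hp]
    · obtain ⟨hm, hd⟩ := hα t ht
      refine sol_of_ode hN hUs (hF.gram_cmp hp L) (hd_fst hd) (hd_snd hd) ?_ ?_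
      · have := congrArg (gm G₀) (hinv _ (hball _ hm).1 (α t).2)
        rw [← this]
        simp only [a, ContinuousLinearMap.comp_apply, hN.right]
        rfl
      · simp only [Φ, map_neg, hN.right]

variable (A) in
structure Inext (c : ℝ → M × (Unit → E)) (J : Set ℝ) : Prop where
  isOpen : IsOpen J
  ord : J.OrdConnected
  nonempty : J.Nonempty
  sol : ∀ t ∈ J, A.Sol () c t
  max : ∀ (c' : ℝ → M × (Unit → E)) (J' : Set ℝ), IsOpen J' → J'.OrdConnected →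
    (∀ t ∈ J', A.Sol () c' t) → J ⊆ J' → EqOn c' c J → J' = J

theorem core {r : ℕ}
    (hr : ∀ x, ∀ y ∈ (A.φ x).target, ∀ v, covRiemann (A.G x) r y v = 0)
    (P : M × (Unit → E) → Prop)
    (hc : ∀ c J, A.Inext c J → (∀ t ∈ J, P (c t)) → J = univ)
    (hb : ∀ x : M, ∃ (w : ι → E) (Gi : (ι → ℝ) →L[ℝ] (ι → ℝ)), ND E (A.gram (x, w)) Gi ∧
      ∀ p : M × (ι → E), A.gram p = A.gram (x, w) → ∀ k, P (rx (fun _ => k) p))
    {γ : ℝ → M × (Unit → E)} {J : Set ℝ} (hγ : A.Inext γ J) : J = univ := by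
  obtain ⟨t₀, ht₀⟩ := hγ.nonempty
  obtain ⟨w, Gi, hN, hP⟩ := hb (γ t₀).1
  set G₀ := A.gram ((γ t₀).1, w) with hG₀
  have hfl : ∀ (k : ι) (p : M × (ι → E)), ∃ c : ℝ → M × (ι → E),
      A.gram p = G₀ → c 0 = p ∧ ∀ t, A.Sol k c t := by
    intro k p
    obtain ⟨c, D, hD, h0, hc0⟩ := exists_maxSol (A := A) k 0 p
    refine ⟨c, fun hp => ⟨hc0, fun t => hD.sol t ?_⟩⟩
    have : D = univ := by
      refine hc (fun t => rx (fun _ => k) (c t)) D ⟨hD.isOpen, hD.ord, ⟨0, h0⟩,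
        fun t ht => Sol.rx (fun _ : Unit => k) (k := ()) (hD.sol t ht), ?_⟩ ?_
      · intro c' J' h1 h2 h3 h4 h5
        exact Subset.antisymm (hD.subset h1 h2 h3 (h4 h0) h0 (h5 h0).symm).1 h4
      · intro t ht
        apply hP
        rw [gram_const hD.isOpen hD.ord hD.sol ht h0, hc0, hp]
    exact this ▸ mem_univ t
  choose Fl hFl using hfl
  have hF : A.IsFlow G₀ Fl := ⟨fun k p hp => (hFl k p hp).1, fun k p hp => (hFl k p hp).2⟩
  obtain ⟨c, D, hD, h0, hc0⟩ := exists_maxSol (A := A) (none : Option ι) t₀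
    ((γ t₀).1, fun o => o.elim ((γ t₀).2 ()) w)
  obtain ⟨hJD, hcγ⟩ := hD.subset hγ.isOpen hγ.ord hγ.sol ht₀ h0 (by rw [hc0]; rfl)
  have hgr : ∀ t ∈ J, A.gram (c t) = A.gram (c t₀) :=
    fun t ht => gram_const hD.isOpen hD.ord hD.sol (hJD ht) h0
  have hg : ∀ t ∈ J, A.gram (rx some (c t)) = G₀ := by
    intro t ht
    funext i j
    have := congrFun (congrFun (hgr t ht) (some i)) (some j)
    rw [hc0] at this
    exact this
  set y₀ := Gi (fun i => A.gram (c t₀) none (some i)) with hy₀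
  have hvel : ∀ t ∈ J, ((rx some (c t)).1, fun _ : Unit => ∑ l, y₀ l • (rx some (c t)).2 l) = γ t := by
    intro t ht
    rw [← hcγ t ht]
    have := hN.expand ((A.lm (c t).1).nondeg _ ((A.φ _).map_source (A.mem _)))
      (u := (rx some (c t)).2) (fun i j => congrFun (congrFun (hg t ht) i) j) ((c t).2 none)
    simp only [rx]
    congr 1
    funext _
    rw [this, hy₀, ← hgr t ht]
    rfl
  obtain ⟨K₀, hK₀, hb₀⟩ : ∃ K₀, 0 ≤ K₀ ∧ A.Bnd r K₀ (c t₀) := by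
    obtain ⟨K, hK⟩ := (Set.finite_range fun z : (Σ m : Fin (r + 1), (Fin (4 + m) → Option ι)) =>
      |A.jet z.1 (c t₀) z.2|).bddAbove
    refine ⟨max K 0, le_max_right _ _, fun m hm I => le_trans ?_ (le_max_left _ _)⟩
    exact hK ⟨⟨⟨m, by omega⟩, I⟩, rfl⟩
  have hr' : ∀ {ι' : Type} (p : M × (ι' → E)) I, A.jet r p I = 0 :=
    fun p I => hr _ _ ((A.φ _).map_source (A.mem _)) _
  refine IsClopen.eq_univ ⟨?_, hγ.isOpen⟩ hγ.nonempty
  rw [← closure_subset_iff_isClosed]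
  intro T hT
  set L := |T - t₀| + 1 with hL
  have hL0 : 0 ≤ L := by positivity
  obtain ⟨τ, hτ, hext⟩ := hF.ext_geo hN hr' (K := K₀ * (1 + L) ^ r) (R := ‖y₀‖) (by positivity)
    (norm_nonneg _)
  obtain ⟨t₁, ht₁, hd⟩ := Metric.mem_closure_iff.1 hT (min τ 1) (by positivity)
  rw [Real.dist_eq] at hd
  have hd1 := abs_lt.1 (hd.trans_le (min_le_left _ _))
  have hd2 := hd.trans_le (min_le_right _ _)
  have hb₁ : A.Bnd r (K₀ * (1 + L) ^ r) (c t₁) := by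
    refine bnd_sol hr' hD.ord hD.sol hK₀ hL0 h0 hb₀ (hJD ht₁) ?_
    have := abs_sub_le t₁ T t₀
    rw [abs_sub_comm t₁ T] at this
    linarith
  obtain ⟨γ₂, h1, h2⟩ := hext (rx some (c t₁)) (hg t₁ ht₁)
    (fun m hm I => hb₁ m hm (fun j => some (I j))) y₀ le_rfl t₁
  have hm : t₁ ∈ Ioo (t₁ - τ) (t₁ + τ) := ⟨by linarith, by linarith⟩
  obtain ⟨c', h3, h4⟩ := sol_glue hγ.isOpen hγ.ord isOpen_Ioo ordConnected_Ioo hγ.sol h2 ht₁ hm
    (by rw [h1, hvel t₁ ht₁])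
  rw [← hγ.max c' _ (hγ.isOpen.union isOpen_Ioo) (ordConnected_union hγ.ord ordConnected_Ioo ht₁ hm)
    h3 subset_union_left h4]
  exact Or.inr ⟨by linarith, by linarith⟩

end Atl

end Pool.Agent.H825Z.RSym
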