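import Pool.Agent.H825Z.RSym.Sol
import Pool.Agent.Helper186.LocalFlow

/-! Smooth flows on the set of frames with a fixed Gram matrix, and the variation equations. -/

set_option autoImplicit false
set_option maxSynthPendingDepth 3
set_option linter.unusedSectionVars false

open Set Filter Topology Function Metric
open scoped ContDiff NNReal

namespace Pool.Agent.H825Z.RSym

variable {E M : Type*} [NormedAddCommGroup E] [NormedSpace ℝ E] [FiniteDimensional ℝ E]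
  [TopologicalSpace M]

lemma var_local {O : Set E} {G : E → E →L[ℝ] E →L[ℝ] ℝ} (h : LM O G) {ι : Type} [Fintype ι]
    {k : ι} {q ξ : ℝ → E × (ι → E)} {t : ℝ} (hy : (q t).1 ∈ O)
    (hq : HasDerivAt q ((q t).2 k, fun i => -chr G (q t).1 ((q t).2 k) ((q t).2 i)) t)
    (hξ : HasDerivAt ξ ((ξ t).2 k, fun i => -(fderiv ℝ (chr G) (q t).1 (ξ t).1 ((q t).2 k) ((q t).2 i)
      + chr G (q t).1 ((ξ t).2 k) ((q t).2 i) + chr G (q t).1 ((q t).2 k) ((ξ t).2 i))) t)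
    (i j : ι) :
    HasDerivAt (fun s => G (q s).1 (ξ s).1 ((q s).2 i))
      (G (q t).1 ((ξ t).2 k + chr G (q t).1 (ξ t).1 ((q t).2 k)) ((q t).2 i)) t ∧
    HasDerivAt (fun s => G (q s).1 ((ξ s).2 i + chr G (q s).1 (ξ s).1 ((q s).2 i)) ((q s).2 j))
      (G (q t).1 (cur G (q t).1 ((q t).2 k) (ξ t).1 ((q t).2 i)) ((q t).2 j)) t := by
  have hG : HasDerivAt (fun s => G (q s).1) (fderiv ℝ G (q t).1 ((q t).2 k)) t :=
    HasFDerivAt.comp_hasDerivAt (l := G) (f := fun s => (q s).1) t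
      ((h.at hy).differentiableAt (by simp)).hasFDerivAt (hd_fst hq)
  have hC : HasDerivAt (fun s => chr G (q s).1) (fderiv ℝ (chr G) (q t).1 ((q t).2 k)) t :=
    HasFDerivAt.comp_hasDerivAt (l := chr G) (f := fun s => (q s).1) t
      ((h.chr_at hy).differentiableAt (by simp)).hasFDerivAt (hd_fst hq)
  have hu := fun i => hasDerivAt_pi.1 (hd_snd hq) i
  have ha := hd_fst hξ
  have hw := fun i => hasDerivAt_pi.1 (hd_snd hξ) i
  constructor
  · refine ((hG.clm_apply ha).clm_apply (hu i)).congr_deriv ?_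
    simp only [add_apply, map_neg, map_add]
    rw [h.compat hy, h.chr_symm hy (ξ t).1]
    ring
  · refine ((hG.clm_apply ((hw i).add ((hC.clm_apply ha).clm_apply (hu i)))).clm_apply
      (hu j)).congr_deriv ?_
    simp only [Pi.add_apply, add_apply, map_neg, map_add, cur, map_sub, sub_apply, neg_apply]
    rw [h.compat hy, h.compat hy]
    ring

lemma gronwall_two {X : Type*} [NormedAddCommGroup X] [NormedSpace ℝ X] {f f' : ℝ → X} {C : ℝ}
    (hC : 0 ≤ C) (hf : ∀ s, HasDerivAt f (f' s) s) (hb : ∀ s, |s| ≤ 1 → ‖f' s‖ ≤ C * ‖f s‖)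
    {s : ℝ} (hs : |s| ≤ 1) : ‖f s - f 0‖ ≤ C * Real.exp C * ‖f 0‖ * |s| := by
  have fwd : ∀ {f f' : ℝ → X}, (∀ s, HasDerivAt f (f' s) s) →
      (∀ s, |s| ≤ 1 → ‖f' s‖ ≤ C * ‖f s‖) → ∀ s ∈ Icc (0:ℝ) 1, ‖f s‖ ≤ Real.exp C * ‖f 0‖ := by
    intro f f' hf hb s hs
    have := norm_le_gronwallBound_of_norm_deriv_right_le (f := f) (f' := f') (δ := ‖f 0‖) (K := C)
      (ε := 0) (a := 0) (b := 1) (fun t _ => (hf t).continuousAt.continuousWithinAt)
      (fun t _ => (hf t).hasDerivWithinAt) le_rfl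
      (fun t ht => by simpa using hb t (by rw [abs_of_nonneg ht.1]; exact ht.2.le)) s hs
    rw [gronwallBound_ε0] at this
    refine this.trans ?_
    rw [mul_comm]
    gcongr
    nlinarith [hs.1, hs.2]
  have all : ∀ s ∈ Icc (-1:ℝ) 1, ‖f s‖ ≤ Real.exp C * ‖f 0‖ := by
    intro s hs
    rcases le_total 0 s with h | h
    · exact fwd hf hb s ⟨h, hs.2⟩
    · have := fwd (f := fun s => f (-s)) (f' := fun s => -f' (-s))
        (fun s => ((hf (-s)).scomp s (hasDerivAt_neg s)).congr_deriv (by simp))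
        (fun s hs => by simpa using hb (-s) (by simpa using hs)) (-s) ⟨by linarith, by linarith [hs.1]⟩
      simpa using this
  have := (convex_Icc (-1:ℝ) 1).norm_image_sub_le_of_norm_hasDerivWithin_le (f := f) (f' := f')
    (C := C * Real.exp C * ‖f 0‖) (fun s _ => (hf s).hasDerivWithinAt)
    (fun s hs => (hb s (abs_le.2 hs)).trans (by
      rw [mul_assoc]; gcongr; exact all s hs)) (x := 0) (y := s) ⟨by norm_num, by norm_num⟩
    (abs_le.1 hs)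
  simpa using this

namespace Atl

variable {A : Atl E M} {ι : Type} [Fintype ι] {V : Type*} [NormedAddCommGroup V] [NormedSpace ℝ V]

variable (A) in
noncomputable def ΘU (U : V → M × (ι → E)) (z : V) : V →L[ℝ] (ι → ℝ) × (ι → ι → ℝ) :=
  A.Θ (U z).1 (A.κ (U z).1 (U z)) ∘L fderiv ℝ (fun w => A.κ (U z).1 (U w)) z

lemma ΘU_chart {U : V → M × (ι → E)} {z : V} (hU : A.Sm 2 U z) {x : M}
    (h : (U z).1 ∈ (A.φ x).source) :
    A.ΘU U z = A.Θ x (A.κ x (U z)) ∘L fderiv ℝ (fun w => A.κ x (U w)) z := by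
  have h1 := hasFDerivAt_change hU.1 (A.mem _) h (hU.2.differentiableAt (by simp)).hasFDerivAt
  rw [h1.fderiv, κ_change (A.mem _) h]
  ext1 v
  simp only [ΘU, ContinuousLinearMap.comp_apply]
  rw [Θ_change (κ_mem_W (A.mem _) h)]

lemma ΘU_comp {V' : Type*} [NormedAddCommGroup V'] [NormedSpace ℝ V'] {U : V → M × (ι → E)}
    {j : V' → V} {z : V'} {L : V' →L[ℝ] V} (hU : A.Sm 2 U (j z)) (hj : HasFDerivAt j L z) (h : V') :
    A.ΘU (fun w => U (j w)) z h = A.ΘU U (j z) (L h) := by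
  have := HasFDerivAt.comp (g := fun w => A.κ (U (j z)).1 (U w)) z
    (hU.2.differentiableAt (by simp)).hasFDerivAt hj
  simp only [ΘU, ContinuousLinearMap.comp_apply]
  rw [show (fun w => A.κ (U (j z)).1 (U (j w))) = (fun w => A.κ (U (j z)).1 (U w)) ∘ j from rfl,
    this.fderiv]
  rfl

lemma contDiffAt_ΘU {U : V → M × (ι → E)} (hU : ∀ z, A.Sm 2 U z) (z : V) :
    ContDiffAt ℝ 1 (A.ΘU U) z := by
  have h1 : A.ΘU U =ᶠ[𝓝 z] fun w => A.Θ (U z).1 (A.κ (U z).1 (U w)) ∘L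
      fderiv ℝ (fun w => A.κ (U z).1 (U w)) w := by
    filter_upwards [(hU z).1.eventually ((A.φ (U z).1).open_source.mem_nhds (A.mem _))] with w hw
    exact ΘU_chart (hU w) hw
  refine ContDiffAt.congr_of_eventuallyEq ?_ h1
  refine ContDiffAt.clm_comp ?_ ((hU z).2.fderiv_right (m := 1) (by norm_num))
  exact ContDiffAt.comp (g := A.Θ (U z).1) z
    ((contDiffAt_Θ (κ_mem (A.mem _))).of_le (by simp)) ((hU z).2.of_le (by norm_num))

lemma fderiv_F (k : ι) {x : M} {q : E × (ι → E)} (h : q.1 ∈ (A.φ x).target) (ξ : E × (ι → E)) :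
    fderiv ℝ (A.F k x) q ξ = (ξ.2 k, fun i => -(fderiv ℝ (chr (A.G x)) q.1 ξ.1 (q.2 k) (q.2 i)
      + chr (A.G x) q.1 (ξ.2 k) (q.2 i) + chr (A.G x) q.1 (q.2 k) (ξ.2 i))) := by
  have hp : ∀ i, HasFDerivAt (fun q : E × (ι → E) => q.2 i)
      ((ContinuousLinearMap.proj i : (ι → E) →L[ℝ] E) ∘L ContinuousLinearMap.snd ℝ E (ι → E)) q :=
    fun i => (((ContinuousLinearMap.proj i : (ι → E) →L[ℝ] E) ∘L
        ContinuousLinearMap.snd ℝ E (ι → E)).hasFDerivAt (x := q))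
  have hC := (((A.lm x).chr_at h).differentiableAt (by simp)).hasFDerivAt.comp q
    (hasFDerivAt_fst (𝕜 := ℝ) (p := q))
  have h3 := (hp k).prodMk (hasFDerivAt_pi.2 fun i =>
    ((hC.clm_apply (hp k)).clm_apply (hp i)).neg)
  have h4 : HasFDerivAt (A.F k x) _ q := h3
  rw [h4.fderiv]
  ext1
  · simp
  · funext i
    simp
    abel

/-- the variation equations, in a chart -/
lemma variation {W : V × ℝ → M × (ι → E)} (hW : ∀ w, A.Sm 2 W w) {k : ι}
    (hs : ∀ z t, A.Sol k (fun s => W (z, s)) t) (z h : V) (t : ℝ) :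
    HasDerivAt (fun s => A.ΘU W (z, s) (h, 0))
      (fun i => (A.ΘU W (z, t) (h, 0)).2 k i, fun i j =>
        A.G (W (z, t)).1 (A.φ (W (z, t)).1 (W (z, t)).1)
          (cur (A.G (W (z, t)).1) (A.φ (W (z, t)).1 (W (z, t)).1) ((W (z, t)).2 k)
            (fderiv ℝ (fun w => A.κ (W (z, t)).1 (W w)) (z, t) (h, 0)).1 ((W (z, t)).2 i))
          ((W (z, t)).2 j)) t := by
  set x := (W (z, t)).1 with hx
  set Q : V × ℝ → E × (ι → E) := fun w => A.κ x (W w) with hQ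
  have hQ2 : ContDiffAt ℝ 2 Q (z, t) := (hW (z, t)).2
  have hsrc : ∀ᶠ w in 𝓝 (z, t), (W w).1 ∈ (A.φ x).source :=
    (hW (z, t)).1.eventually ((A.φ x).open_source.mem_nhds (A.mem _))
  have hin : HasDerivAt (fun s : ℝ => (z, s)) ((0 : V), (1 : ℝ)) t :=
    (hasDerivAt_const t z).prodMk (hasDerivAt_id t)
  have h1 : (fun w => fderiv ℝ Q w (0, 1)) =ᶠ[𝓝 (z, t)] fun w => A.F k x (Q w) := by
    filter_upwards [hsrc] with w hw
    have a1 : HasFDerivAt Q (fderiv ℝ Q w) (w.1, w.2) :=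
      (((hW w).chart hw).differentiableAt (by simp)).hasFDerivAt
    have a2 := HasFDerivAt.comp_hasDerivAt (l := Q) (f := fun s : ℝ => (w.1, s)) w.2 a1
      ((hasDerivAt_const w.2 w.1).prodMk (hasDerivAt_id w.2))
    exact a2.unique ((hs w.1 w.2).chart hw)
  have hD : HasFDerivAt (fderiv ℝ Q) (fderiv ℝ (fderiv ℝ Q) (z, t)) (z, t) :=
    ((hQ2.fderiv_right (m := 1) (by norm_num)).differentiableAt (by simp)).hasFDerivAt
  have hsym := hQ2.isSymmSndFDerivAt (by simp)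
  have hq0 : (Q (z, t)).1 ∈ (A.φ x).target := κ_mem (A.mem _)
  have h2 : fderiv ℝ (fderiv ℝ Q) (z, t) (h, 0) (0, 1) =
      fderiv ℝ (A.F k x) (Q (z, t)) (fderiv ℝ Q (z, t) (h, 0)) := by
    have a1 := hD.clm_apply (hasFDerivAt_const ((0 : V), (1 : ℝ)) (z, t))
    have a2 := HasFDerivAt.comp (g := A.F k x) (f := Q) (z, t)
      ((contDiffAt_F k hq0).differentiableAt (by simp)).hasFDerivAt
      (hQ2.differentiableAt (by simp)).hasFDerivAt
    have := congrArg (fun L => L (h, 0)) ((a1.congr_of_eventuallyEq h1.symm).unique a2)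
    simpa using this
  have hξ : HasDerivAt (fun s => fderiv ℝ Q (z, s) (h, 0))
      (fderiv ℝ (A.F k x) (Q (z, t)) (fderiv ℝ Q (z, t) (h, 0))) t := by
    have a1 := (HasFDerivAt.comp_hasDerivAt (l := fderiv ℝ Q) (f := fun s : ℝ => (z, s)) t hD
      hin).clm_apply (hasDerivAt_const t (h, (0:ℝ)))
    rw [← h2, hsym.eq]
    simpa using a1
  rw [fderiv_F k hq0] at hξ
  have hq : HasDerivAt (fun s => Q (z, s)) (A.F k x (Q (z, t))) t := (hs z t).2
  have hv := var_local (A.lm x) (q := fun s => Q (z, s)) (ξ := fun s => fderiv ℝ Q (z, s) (h, 0))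
    hq0 hq hξ
  have h3 : (fun s => A.ΘU W (z, s) (h, 0)) =ᶠ[𝓝 t]
      fun s => A.Θ x (Q (z, s)) (fderiv ℝ Q (z, s) (h, 0)) := by
    filter_upwards [hin.continuousAt.eventually hsrc] with s hs
    rw [ΘU_chart (hW _) hs]
    rfl
  refine HasDerivAt.congr_of_eventuallyEq ?_ h3
  have hQt : Q (z, t) = (A.φ x x, (W (z, t)).2) := κ_self _
  refine HasDerivAt.prodMk (hasDerivAt_pi.2 fun i => (hv i i).1)
    (hasDerivAt_pi.2 fun i => hasDerivAt_pi.2 fun j => ?_)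
  have := (hv i j).2
  rw [hQt] at this
  exact this

variable [T2Space M]

variable (A) in
structure IsFlow (G₀ : ι → ι → ℝ) (Fl : ι → M × (ι → E) → ℝ → M × (ι → E)) : Prop where
  zero : ∀ k p, A.gram p = G₀ → Fl k p 0 = p
  sol : ∀ k p, A.gram p = G₀ → ∀ t, A.Sol k (Fl k p) t

variable {G₀ : ι → ι → ℝ} {Fl : ι → M × (ι → E) → ℝ → M × (ι → E)}

lemma IsFlow.gram (hF : A.IsFlow G₀ Fl) (k : ι) {p : M × (ι → E)} (hp : A.gram p = G₀) (t : ℝ) :
    A.gram (Fl k p t) = G₀ := by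
  rw [gram_const isOpen_univ ordConnected_univ (fun t _ => hF.sol k p hp t) (mem_univ t)
    (mem_univ 0), hF.zero k p hp, hp]

lemma IsFlow.add (hF : A.IsFlow G₀ Fl) (k : ι) {p : M × (ι → E)} (hp : A.gram p = G₀) (s t : ℝ) :
    Fl k p (t + s) = Fl k (Fl k p s) t :=
  sol_unique (c₁ := fun t => Fl k p (t + s)) isOpen_univ ordConnected_univ
    (fun t _ => (hF.sol k p hp (t + s)).shift) (fun t _ => hF.sol k _ (hF.gram k hp s) t)
    (mem_univ 0) (by simp [hF.zero k _ (hF.gram k hp s)]) (mem_univ t)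

lemma IsFlow.local (hF : A.IsFlow G₀ Fl) (k : ι) (p₀ : M × (ι → E)) :
    ∃ ε > (0 : ℝ), ∃ α : (E × (ι → E)) × ℝ → E × (ι → E), ∀ w ∈ ball (A.κ p₀.1 p₀, (0 : ℝ)) ε,
      ContDiffAt ℝ 2 α w ∧ (α w).1 ∈ (A.φ p₀.1).target ∧
      ∀ p, A.gram p = G₀ → p.1 ∈ (A.φ p₀.1).source → A.κ p₀.1 p = w.1 →
        Fl k p w.2 = A.κi p₀.1 (α w) := by
  set x := p₀.1
  have hx : p₀.1 ∈ (A.φ x).source := A.mem _
  obtain ⟨r, hr, ε, hε, α, h0, hd, hα⟩ := Helper186.exists_local_flow (n := 2) (by norm_num)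
    ((contDiffAt_F k (κ_mem hx)).of_le two_le_inf)
  have h1 : ∀ᶠ w in 𝓝 (A.κ x p₀, (0 : ℝ)), (α w).1 ∈ (A.φ x).target :=
    hα.continuousAt.fst.eventually ((A.φ x).open_target.mem_nhds (by
      show (α (A.κ x p₀, 0)).1 ∈ _
      rw [h0 _ (mem_closedBall_self hr.le)]; exact κ_mem hx))
  obtain ⟨η, hη, hη'⟩ := Metric.eventually_nhds_iff_ball.1 (h1.and (hα.eventually (by simp)))
  set ρ := min η (min r ε) with hρ
  have a1 : ρ ≤ η := min_le_left _ _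
  have a2 : ρ ≤ r := (min_le_right _ _).trans (min_le_left _ _)
  have a3 : ρ ≤ ε := (min_le_right _ _).trans (min_le_right _ _)
  have hρ0 : 0 < ρ := by positivity
  refine ⟨ρ, hρ0, α, fun w hw => ⟨(hη' w (ball_subset_ball a1 hw)).2,
    (hη' w (ball_subset_ball a1 hw)).1, fun p hp hpx he => ?_⟩⟩
  rw [← ball_prod_same] at hw
  have hw1 : w.1 ∈ closedBall (A.κ x p₀) r :=
    ball_subset_closedBall (ball_subset_ball a2 hw.1)
  have hw2 : w.2 ∈ Ioo (-ρ) ρ := by simpa [Real.ball_eq_Ioo] using hw.2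
  refine sol_unique (c₂ := fun s => A.κi x (α (w.1, s))) isOpen_Ioo ordConnected_Ioo
    (fun s _ => hF.sol k p hp s) (fun s hs => ?_) (t₀ := 0) ⟨by linarith, hρ0⟩ ?_ hw2
  · refine sol_κi (q := fun s => α (w.1, s)) (hη' _ (ball_subset_ball a1 ?_)).1
      (hd _ hw1 s ⟨by linarith [hs.1], by linarith [hs.2]⟩)
    rw [← ball_prod_same]
    exact ⟨hw.1, by simpa [Real.ball_eq_Ioo] using hs⟩
  · rw [hF.zero k p hp, h0 _ hw1, ← he, κi_κ hpx]

lemma IsFlow.sm (hF : A.IsFlow G₀ Fl) (k : ι) {U : V → M × (ι → E)} (hg : ∀ z, A.gram (U z) = G₀)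
    {z₀ : V} (hU : A.Sm 2 U z₀) (t : ℝ) :
    A.Sm 2 (fun w : V × ℝ => Fl k (U w.1) w.2) (z₀, t) := by
  have prop : ∀ t₀ : ℝ, ∃ δ > (0 : ℝ), ∀ t₁ ∈ ball t₀ δ, ∀ t₂ ∈ ball t₀ δ,
      A.Sm 2 (fun z => Fl k (U z) t₁) z₀ → A.Sm 2 (fun w : V × ℝ => Fl k (U w.1) w.2) (z₀, t₂) := by
    intro t₀
    set p₀ := Fl k (U z₀) t₀ with hp₀
    obtain ⟨ε, hε, α, hα⟩ := hF.local k p₀
    have hs := hF.sol k _ (hg z₀) t₀
    have e1 := hs.1.eventually ((A.φ p₀.1).open_source.mem_nhds (A.mem _))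
    have e2 : ∀ᶠ s in 𝓝 t₀, A.κ p₀.1 (Fl k (U z₀) s) ∈ ball (A.κ p₀.1 p₀) ε :=
      hs.2.continuousAt.eventually (ball_mem_nhds _ hε)
    obtain ⟨δ, hδ, hδ'⟩ := Metric.eventually_nhds_iff_ball.1 (e1.and e2)
    refine ⟨min δ (ε / 2), by positivity, fun t₁ ht₁ t₂ ht₂ h => ?_⟩
    obtain ⟨b1, b2⟩ := hδ' t₁ (ball_subset_ball (min_le_left _ _) ht₁)
    have h' : A.Sm 2 (fun w : V × ℝ => Fl k (U w.1) t₁) (z₀, t₂) :=
      Sm.comp (U := fun z => Fl k (U z) t₁) (j := Prod.fst) h contDiffAt_fst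
    set j : V × ℝ → (E × (ι → E)) × ℝ := fun w => (A.κ p₀.1 (Fl k (U w.1) t₁), w.2 - t₁) with hj
    have hjs : ContDiffAt ℝ 2 j (z₀, t₂) := (h'.chart b1).prodMk (by fun_prop)
    have hjm : j (z₀, t₂) ∈ ball (A.κ p₀.1 p₀, (0 : ℝ)) ε := by
      rw [← ball_prod_same]
      refine ⟨b2, ?_⟩
      have c1 := ball_subset_ball (min_le_right _ _) ht₁
      have c2 := ball_subset_ball (min_le_right _ _) ht₂
      simp only [mem_ball, Real.dist_eq, abs_lt, hj, sub_zero] at c1 c2 ⊢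
      constructor <;> linarith [c1.1, c1.2, c2.1, c2.2]
    refine (sm_κi (q := fun w => α (j w)) (hα _ hjm).2.1
      (ContDiffAt.comp (g := α) _ (hα _ hjm).1 hjs)).congr ?_
    filter_upwards [hjs.continuousAt.eventually (isOpen_ball.mem_nhds hjm),
      h'.1.eventually ((A.φ p₀.1).open_source.mem_nhds b1)] with w hw1 hw2
    rw [← (hα _ hw1).2.2 _ (hF.gram k (hg w.1) t₁) hw2 rfl, ← hF.add k (hg w.1)]
    simp [hj]
  set S : Set ℝ := {t | A.Sm 2 (fun z => Fl k (U z) t) z₀} with hS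
  have prop2 : ∀ t₀ : ℝ, ∃ δ > (0 : ℝ), ∀ t₁ ∈ ball t₀ δ, ∀ t₂ ∈ ball t₀ δ, t₁ ∈ S → t₂ ∈ S := by
    intro t₀
    obtain ⟨δ, hδ, h⟩ := prop t₀
    refine ⟨δ, hδ, fun t₁ h1 t₂ h2 h3 => ?_⟩
    exact Sm.comp (U := fun w : V × ℝ => Fl k (U w.1) w.2) (j := fun z => (z, t₂))
      (h t₁ h1 t₂ h2 h3) (by fun_prop)
  have hclopen : IsClopen S := by
    constructor
    · rw [← isOpen_compl_iff, Metric.isOpen_iff]
      intro t₀ ht₀
      obtain ⟨δ, hδ, hδ'⟩ := prop2 t₀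
      exact ⟨δ, hδ, fun t₁ ht₁ hmem => ht₀ (hδ' t₁ ht₁ t₀ (mem_ball_self hδ) hmem)⟩
    · rw [Metric.isOpen_iff]
      intro t₀ ht₀
      obtain ⟨δ, hδ, hδ'⟩ := prop2 t₀
      exact ⟨δ, hδ, fun t₁ ht₁ => hδ' t₀ (mem_ball_self hδ) t₁ ht₁ ht₀⟩
  have h0 : (0 : ℝ) ∈ S := by
    refine hU.congr (Eventually.of_forall fun z => hF.zero k _ (hg z))
  have hall : t ∈ S := (hclopen.eq_univ ⟨0, h0⟩) ▸ mem_univ t
  obtain ⟨δ, hδ, h⟩ := prop t
  exact h t (mem_ball_self hδ) t (mem_ball_self hδ) hall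

end Atl

end Pool.Agent.H825Z.RSym
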