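import Pool.Agent.H825Z.RSym.Defs

/-! Local theory: Christoffel symbols, curvature, tensors in coordinates. -/

set_option autoImplicit false
set_option maxSynthPendingDepth 3

open Set Filter Topology Function
open scoped ContDiff

namespace Pool.Agent.H825Z.RSym

variable {E : Type*} [NormedAddCommGroup E] [NormedSpace ℝ E]

/-- a metric in coordinates -/
structure LM (O : Set E) (G : E → E →L[ℝ] E →L[ℝ] ℝ) : Prop where
  isOpen : IsOpen O
  smooth : ContDiffOn ℝ ∞ G O
  symm : ∀ y ∈ O, ∀ u v, G y u v = G y v u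
  nondeg : ∀ y ∈ O, ∀ u, (∀ v, G y u v = 0) → u = 0

noncomputable def kos (D : E →L[ℝ] E →L[ℝ] E →L[ℝ] ℝ) : E →L[ℝ] E →L[ℝ] E →L[ℝ] ℝ :=
  (1 / 2 : ℝ) • (D + D.flip -
    ((ContinuousLinearMap.flipₗᵢ ℝ E E ℝ).toContinuousLinearEquiv :
      (E →L[ℝ] E →L[ℝ] ℝ) →L[ℝ] (E →L[ℝ] E →L[ℝ] ℝ)) ∘L D.flip)

lemma kos_apply (D : E →L[ℝ] E →L[ℝ] E →L[ℝ] ℝ) (u v w : E) :
    kos D u v w = (1 / 2 : ℝ) * (D u v w + D v u w - D w u v) := by
  simp [kos]

lemma contDiff_kos : ContDiff ℝ ∞ (kos (E := E)) := by
  have h1 : ContDiff ℝ ∞ (fun D : E →L[ℝ] E →L[ℝ] E →L[ℝ] ℝ => D.flip) :=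
    (ContinuousLinearMap.flipₗᵢ ℝ E E (E →L[ℝ] ℝ)).contDiff
  unfold kos
  exact ((contDiff_id.add h1).sub (contDiff_const.clm_comp h1)).const_smul _

/-- Christoffel symbols as a continuous bilinear map -/
noncomputable def chr (G : E → E →L[ℝ] E →L[ℝ] ℝ) (y : E) : E →L[ℝ] E →L[ℝ] E :=
  (ContinuousLinearMap.compL ℝ E (E →L[ℝ] ℝ) E (G y).inverse) ∘L kos (fderiv ℝ G y)

lemma christoffel_eq (G : E → E →L[ℝ] E →L[ℝ] ℝ) (y u v : E) :
    christoffel G y u v = chr G y u v := by
  unfold christoffel chr
  simp only [ContinuousLinearMap.comp_apply, ContinuousLinearMap.compL_apply]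
  congr 1

variable [FiniteDimensional ℝ E] {O : Set E} {G : E → E →L[ℝ] E →L[ℝ] ℝ}

lemma isInvertible_of_nondeg (B : E →L[ℝ] E →L[ℝ] ℝ) (h : ∀ u, (∀ v, B u v = 0) → u = 0) :
    B.IsInvertible := by
  have hinj : Injective (B : E →ₗ[ℝ] (E →L[ℝ] ℝ)) := by
    rw [injective_iff_map_eq_zero]
    intro u hu
    apply h
    intro v
    have : B u = 0 := hu
    rw [this]; rfl
  have hdim : Module.finrank ℝ E = Module.finrank ℝ (E →L[ℝ] ℝ) := by
    rw [← (LinearMap.toContinuousLinearMap : (E →ₗ[ℝ] ℝ) ≃ₗ[ℝ] (E →L[ℝ] ℝ)).finrank_eq]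
    exact (Subspace.dual_finrank_eq (K := ℝ) (V := E)).symm
  have hsurj := (LinearMap.injective_iff_surjective_of_finrank_eq_finrank hdim).1 hinj
  refine ⟨(LinearEquiv.ofBijective _ ⟨hinj, hsurj⟩).toContinuousLinearEquiv, ?_⟩
  ext u v; rfl

lemma LM.inv (h : LM O G) {y : E} (hy : y ∈ O) : (G y).IsInvertible :=
  isInvertible_of_nondeg _ (h.nondeg y hy)

omit [FiniteDimensional ℝ E] in
lemma LM.at (h : LM O G) {y : E} (hy : y ∈ O) : ContDiffAt ℝ ∞ G y :=
  h.smooth.contDiffAt (h.isOpen.mem_nhds hy)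

omit [FiniteDimensional ℝ E] in
lemma LM.dat (h : LM O G) {y : E} (hy : y ∈ O) : ContDiffAt ℝ ∞ (fderiv ℝ G) y :=
  (h.at hy).fderiv_right (m := ∞) (by simp)

lemma LM.chr_at (h : LM O G) {y : E} (hy : y ∈ O) : ContDiffAt ℝ ∞ (chr G) y := by
  have : CompleteSpace E := FiniteDimensional.complete ℝ E
  unfold chr
  refine ContDiffAt.clm_comp ?_ (contDiff_kos.contDiffAt.comp y (h.dat hy))
  refine (ContinuousLinearMap.compL ℝ E (E →L[ℝ] ℝ) E).contDiff.contDiffAt.comp y ?_
  exact (h.inv hy).contDiffAt_map_inverse.comp y (h.at hy)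

lemma LM.koszul (h : LM O G) {y : E} (hy : y ∈ O) (u v w : E) :
    G y (chr G y u v) w =
      (1 / 2 : ℝ) * (fderiv ℝ G y u v w + fderiv ℝ G y v u w - fderiv ℝ G y w u v) := by
  rw [← kos_apply]
  unfold chr
  simp only [ContinuousLinearMap.comp_apply, ContinuousLinearMap.compL_apply]
  rw [(h.inv hy).self_apply_inverse]

omit [FiniteDimensional ℝ E] in
lemma LM.dsymm (h : LM O G) {y : E} (hy : y ∈ O) (a u v : E) :
    fderiv ℝ G y a u v = fderiv ℝ G y a v u := by
  have hd : HasFDerivAt G (fderiv ℝ G y) y := ((h.at hy).differentiableAt (by simp)).hasFDerivAt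
  have h1 := (hd.clm_apply (hasFDerivAt_const u y)).clm_apply (hasFDerivAt_const v y)
  have h2 := (hd.clm_apply (hasFDerivAt_const v y)).clm_apply (hasFDerivAt_const u y)
  have h3 : (fun z => G z u v) =ᶠ[𝓝 y] fun z => G z v u := by
    filter_upwards [h.isOpen.mem_nhds hy] with z hz using h.symm z hz u v
  have := (h1.congr_of_eventuallyEq h3.symm).unique h2
  simpa using congrArg (fun L => L a) this

omit [FiniteDimensional ℝ E] in
lemma LM.ext (h : LM O G) {y : E} (hy : y ∈ O) {a b : E} (hab : ∀ w, G y a w = G y b w) :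
    a = b := by
  rw [← sub_eq_zero]
  apply h.nondeg y hy
  intro v
  rw [map_sub, sub_apply, hab, sub_self]

lemma LM.chr_symm (h : LM O G) {y : E} (hy : y ∈ O) (u v : E) : chr G y u v = chr G y v u := by
  apply h.ext hy
  intro w
  rw [h.koszul hy, h.koszul hy, h.dsymm hy w u v]
  ring

lemma LM.compat (h : LM O G) {y : E} (hy : y ∈ O) (a u v : E) :
    fderiv ℝ G y a u v = G y (chr G y a u) v + G y u (chr G y a v) := by
  rw [h.symm y hy u, h.koszul hy, h.koszul hy, h.dsymm hy a v u, h.dsymm hy u a v,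
    h.dsymm hy v a u]
  ring

/-- curvature through `chr` -/
noncomputable def cur (G : E → E →L[ℝ] E →L[ℝ] ℝ) (y a b c : E) : E :=
  fderiv ℝ (chr G) y a b c - fderiv ℝ (chr G) y b a c + chr G y a (chr G y b c)
    - chr G y b (chr G y a c)

lemma LM.fderiv_christoffel (h : LM O G) {y : E} (hy : y ∈ O) (a b c : E) :
    fderiv ℝ (fun z => christoffel G z b c) y a = fderiv ℝ (chr G) y a b c := by
  have hd : HasFDerivAt (chr G) (fderiv ℝ (chr G) y) y :=
    ((h.chr_at hy).differentiableAt (by simp)).hasFDerivAt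
  have h1 := (hd.clm_apply (hasFDerivAt_const b y)).clm_apply (hasFDerivAt_const c y)
  simp only [christoffel_eq]
  rw [h1.fderiv]
  simp

lemma LM.curvature_eq (h : LM O G) {y : E} (hy : y ∈ O) (a b c : E) :
    curvature G y a b c = cur G y a b c := by
  unfold curvature cur
  rw [h.fderiv_christoffel hy, h.fderiv_christoffel hy]
  simp only [christoffel_eq]

/-- smooth tensor fields -/
structure Tens (O : Set E) {k : ℕ} (T : E → (Fin k → E) → ℝ) : Prop where
  smooth : ∀ y ∈ O, ∀ v, ContDiffAt ℝ ∞ (fun p : E × (Fin k → E) => T p.1 p.2) (y, v)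
  lin : ∀ y ∈ O, ∀ v i, IsLinearMap ℝ (fun w => T y (update v i w))

omit [FiniteDimensional ℝ E] in
lemma Tens.left {k : ℕ} {T : E → (Fin k → E) → ℝ} (hT : Tens O T) {y : E} (hy : y ∈ O)
    (v : Fin k → E) : ContDiffAt ℝ ∞ (fun z => T z v) y :=
  (hT.smooth y hy v).comp y (contDiffAt_id.prodMk contDiffAt_const)

omit [FiniteDimensional ℝ E] in
lemma Tens.hasFDerivAt_right {k : ℕ} {T : E → (Fin k → E) → ℝ} (hT : Tens O T) {y : E}
    (hy : y ∈ O) (v : Fin k → E) :
    ∃ L : (Fin k → E) →L[ℝ] ℝ, HasFDerivAt (T y) L v ∧ ∀ w, L w = ∑ i, T y (update v i (w i)) := by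
  have hc : Continuous (T y) := by
    rw [continuous_iff_continuousAt]
    intro v
    exact ((hT.smooth y hy v).comp v (contDiffAt_const.prodMk contDiffAt_id)).continuousAt
  have h1 : ∀ [inst : DecidableEq (Fin k)] (v : Fin k → E) (i : Fin k) (a b : E),
      T y (@update _ _ inst v i (a + b)) =
        T y (@update _ _ inst v i a) + T y (@update _ _ inst v i b) := by
    intro inst v i a b
    obtain rfl : inst = instDecidableEqFin k := Subsingleton.elim _ _
    exact (hT.lin y hy v i).map_add a b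
  have h2 : ∀ [inst : DecidableEq (Fin k)] (v : Fin k → E) (i : Fin k) (c : ℝ) (a : E),
      T y (@update _ _ inst v i (c • a)) = c • T y (@update _ _ inst v i a) := by
    intro inst v i c a
    obtain rfl : inst = instDecidableEqFin k := Subsingleton.elim _ _
    exact (hT.lin y hy v i).map_smul c a
  let m : ContinuousMultilinearMap ℝ (fun _ : Fin k => E) ℝ :=
    ⟨⟨T y, fun v i a b => h1 v i a b, fun v i c a => h2 v i c a⟩, hc⟩
  exact ⟨m.linearDeriv v, m.hasFDerivAt v, fun w => m.linearDeriv_apply v w⟩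

lemma covDeriv_cons {k : ℕ} (T : E → (Fin k → E) → ℝ) (y a : E) (w : Fin k → E) :
    covDeriv G T y (Fin.cons a w : Fin (k + 1) → E) =
      fderiv ℝ (fun z => T z w) y a - ∑ j, T y (update w j (chr G y a (w j))) := by
  simp [covDeriv, christoffel_eq]

/-- derivative of a tensor along a curve -/
lemma Tens.hasDerivAt {k : ℕ} {T : E → (Fin k → E) → ℝ} (hT : Tens O T)
    {y : ℝ → E} {w : ℝ → Fin k → E} {a : E} {w' : Fin k → E} {t : ℝ} (hy : y t ∈ O)
    (hy' : HasDerivAt y a t) (hw : HasDerivAt w w' t) :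
    HasDerivAt (fun s => T (y s) (w s))
      (covDeriv G T (y t) (Fin.cons a (w t) : Fin (k + 1) → E) +
        ∑ j, T (y t) (update (w t) j (w' j + chr G (y t) a (w t j)))) t := by
  have hd := ((hT.smooth _ hy (w t)).differentiableAt (by simp)).hasFDerivAt
  set D := fderiv ℝ (fun p : E × (Fin k → E) => T p.1 p.2) (y t, w t) with hD
  have h1 : HasDerivAt (fun s => T (y s) (w s)) (D (a, w')) t :=
    HasFDerivAt.comp_hasDerivAt (l := fun p : E × (Fin k → E) => T p.1 p.2)
      (f := fun s => (y s, w s)) t hd (hy'.prodMk hw)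
  have h2 : HasFDerivAt (fun z => T z (w t)) (D ∘L ContinuousLinearMap.inl ℝ _ _) (y t) :=
    HasFDerivAt.comp (g := fun p : E × (Fin k → E) => T p.1 p.2) (f := fun z => (z, w t))
      (y t) hd (hasFDerivAt_prodMk_left (y t) (w t))
  have h3 : HasFDerivAt (T (y t)) (D ∘L ContinuousLinearMap.inr ℝ _ _) (w t) :=
    HasFDerivAt.comp (g := fun p : E × (Fin k → E) => T p.1 p.2) (f := fun v => (y t, v))
      (w t) hd (hasFDerivAt_prodMk_right (y t) (w t))
  obtain ⟨L, hL, hL'⟩ := hT.hasFDerivAt_right hy (w t)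
  have h4 := h3.unique hL
  convert h1 using 1
  rw [covDeriv_cons, h2.fderiv]
  have h5 : D (a, w') = D (a, 0) + D (0, w') := by rw [← map_add]; simp
  have h6 : D (0, w') = ∑ i, T (y t) (update (w t) i (w' i)) := by
    rw [← hL', ← h4]; simp
  rw [h5, h6]
  have h7 : ∀ j, T (y t) (update (w t) j (w' j + chr G (y t) a (w t j))) =
      T (y t) (update (w t) j (w' j)) + T (y t) (update (w t) j (chr G (y t) a (w t j))) :=
    fun j => (hT.lin _ hy (w t) j).map_add _ _
  simp only [h7, Finset.sum_add_distrib]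
  simp

lemma Tens.cov (h : LM O G) {k : ℕ} {T : E → (Fin k → E) → ℝ} (hT : Tens O T) :
    Tens O (covDeriv G T) := by
  constructor
  · intro y hy v
    have ht : ContDiff ℝ ∞ (fun p : E × (Fin (k + 1) → E) => (Fin.tail p.2 : Fin k → E)) := by
      rw [contDiff_pi]; intro j; unfold Fin.tail; fun_prop
    have h0 : ContDiff ℝ ∞ (fun p : E × (Fin (k + 1) → E) => p.2 0) := by fun_prop
    simp only [covDeriv, christoffel_eq]
    apply ContDiffAt.sub
    · refine ContDiffAt.clm_apply ?_ h0.contDiffAt
      refine ContDiffAt.fderiv (f := fun (p : E × (Fin (k + 1) → E)) (z : E) => T z (Fin.tail p.2))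
        (g := fun p => p.1) (n := ∞) ?_ contDiffAt_fst (by simp)
      exact (hT.smooth y hy (Fin.tail v)).comp ((y, v), y)
        (contDiffAt_snd.prodMk (ht.contDiffAt.comp _ contDiffAt_fst))
    · refine ContDiffAt.sum fun j _ => ?_
      refine ContDiffAt.comp (g := fun p : E × (Fin k → E) => T p.1 p.2)
        (f := fun p : E × (Fin (k + 1) → E) => (p.1, update (Fin.tail p.2) j
          (chr G p.1 (p.2 0) (Fin.tail p.2 j)))) (y, v) (hT.smooth y hy _)
        (contDiffAt_fst.prodMk ?_)
      rw [contDiffAt_pi]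
      intro i
      by_cases hij : i = j
      · subst hij
        simp only [update_self]
        refine ContDiffAt.clm_apply (ContDiffAt.clm_apply
          ((h.chr_at hy).comp (y, v) contDiffAt_fst) h0.contDiffAt) ?_
        unfold Fin.tail; fun_prop
      · simp only [update_of_ne hij]
        unfold Fin.tail; fun_prop
  · intro y hy v i
    rw [← Fin.cons_self_tail v]
    generalize v 0 = a
    generalize Fin.tail v = w
    refine Fin.cases ?_ (fun m => ?_) i
    · simp only [Fin.update_cons_zero, covDeriv_cons]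
      constructor
      · intro b c
        have : ∀ j, T y (update w j (chr G y (b + c) (w j))) =
            T y (update w j (chr G y b (w j))) + T y (update w j (chr G y c (w j))) := by
          intro j
          rw [map_add, add_apply]
          exact (hT.lin y hy w j).map_add _ _
        rw [Finset.sum_congr rfl fun j _ => this j]
        simp only [map_add, Finset.sum_add_distrib]
        ring
      · intro c b
        have : ∀ j, T y (update w j (chr G y (c • b) (w j))) =
            c • T y (update w j (chr G y b (w j))) := by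
          intro j
          rw [map_smul, smul_apply]
          exact (hT.lin y hy w j).map_smul _ _
        rw [Finset.sum_congr rfl fun j _ => this j]
        simp only [map_smul, smul_eq_mul, mul_sub, Finset.mul_sum]
    · simp only [← Fin.cons_update, covDeriv_cons]
      have hdiff : ∀ u, DifferentiableAt ℝ (fun z => T z u) y :=
        fun u => (hT.left hy u).differentiableAt (by simp)
      have hsum : ∀ j, IsLinearMap ℝ
          (fun b => T y (update (update w m b) j (chr G y a (update w m b j)))) := by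
        intro j
        by_cases hj : j = m
        · subst hj
          simp only [update_self, update_idem]
          constructor
          · intro b c; rw [map_add]; exact (hT.lin y hy w j).map_add _ _
          · intro c b; rw [map_smul]; exact (hT.lin y hy w j).map_smul _ _
        · simp only [update_of_ne hj]
          simp only [update_comm (Ne.symm hj)]
          exact hT.lin y hy _ m
      constructor
      · intro b c
        have h1 : (fun z => T z (update w m (b + c))) =ᶠ[𝓝 y]
            fun z => T z (update w m b) + T z (update w m c) := by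
          filter_upwards [h.isOpen.mem_nhds hy] with z hz using (hT.lin z hz w m).map_add b c
        rw [h1.fderiv_eq, fderiv_fun_add (hdiff _) (hdiff _)]
        simp only [fun j => (hsum j).map_add b c, Finset.sum_add_distrib,
          add_apply]
        ring
      · intro c b
        have h1 : (fun z => T z (update w m (c • b))) =ᶠ[𝓝 y]
            fun z => c • T z (update w m b) := by
          filter_upwards [h.isOpen.mem_nhds hy] with z hz using (hT.lin z hz w m).map_smul c b
        rw [h1.fderiv_eq, fderiv_fun_const_smul (hdiff _)]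
        simp only [fun j => (hsum j).map_smul c b, smul_apply, smul_eq_mul,
          mul_sub, Finset.mul_sum]

lemma LM.riemann_eq (h : LM O G) {y : E} (hy : y ∈ O) (v : Fin 4 → E) :
    riemann G y v = G y (cur G y (v 0) (v 1) (v 2)) (v 3) := by
  rw [riemann, h.curvature_eq hy]

lemma LM.tens_riemann (h : LM O G) : Tens O (riemann G) := by
  constructor
  · intro y hy v
    have h1 : (fun p : E × (Fin 4 → E) => riemann G p.1 p.2) =ᶠ[𝓝 (y, v)]
        fun p => G p.1 (cur G p.1 (p.2 0) (p.2 1) (p.2 2)) (p.2 3) := by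
      filter_upwards [continuous_fst.continuousAt.eventually (h.isOpen.mem_nhds hy)] with p hp
      exact h.riemann_eq hp p.2
    refine ContDiffAt.congr_of_eventuallyEq ?_ h1
    have hG : ContDiffAt ℝ ∞ (fun p : E × (Fin 4 → E) => G p.1) (y, v) :=
      (h.at hy).comp (y, v) contDiffAt_fst
    have hC : ContDiffAt ℝ ∞ (fun p : E × (Fin 4 → E) => chr G p.1) (y, v) :=
      (h.chr_at hy).comp (y, v) contDiffAt_fst
    have hD : ContDiffAt ℝ ∞ (fun p : E × (Fin 4 → E) => fderiv ℝ (chr G) p.1) (y, v) :=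
      ((h.chr_at hy).fderiv_right (m := ∞) (by simp)).comp (y, v) contDiffAt_fst
    have hv : ∀ i, ContDiffAt ℝ ∞ (fun p : E × (Fin 4 → E) => p.2 i) (y, v) := by
      intro i; fun_prop
    unfold cur
    refine ContDiffAt.clm_apply (ContDiffAt.clm_apply hG ?_) (hv 3)
    refine ContDiffAt.sub (ContDiffAt.add (ContDiffAt.sub ?_ ?_) ?_) ?_
    · exact ((hD.clm_apply (hv 0)).clm_apply (hv 1)).clm_apply (hv 2)
    · exact ((hD.clm_apply (hv 1)).clm_apply (hv 0)).clm_apply (hv 2)
    · exact (hC.clm_apply (hv 0)).clm_apply ((hC.clm_apply (hv 1)).clm_apply (hv 2))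
    · exact (hC.clm_apply (hv 1)).clm_apply ((hC.clm_apply (hv 0)).clm_apply (hv 2))
  · intro y hy v i
    simp only [h.riemann_eq hy, cur]
    fin_cases i <;> constructor <;> intros <;> simp <;> ring

lemma LM.tens (h : LM O G) (r : ℕ) : Tens O (covRiemann G r) := by
  induction r with
  | zero => exact h.tens_riemann
  | succ r ih => exact ih.cov h

end Pool.Agent.H825Z.RSym
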