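import Pool.Agent.H825Z.RSym.Loc

/-! Naturality of the local objects under local isometries. -/

set_option autoImplicit false
set_option maxSynthPendingDepth 3
set_option linter.unusedSectionVars false

open Set Filter Topology Function
open scoped ContDiff

namespace Pool.Agent.H825Z.RSym

variable {E : Type*} [NormedAddCommGroup E] [NormedSpace ℝ E] [FiniteDimensional ℝ E]

structure Iso (W : Set E) (ψ : E → E) (O' : Set E) (G G' : E → E →L[ℝ] E →L[ℝ] ℝ) : Prop where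
  lm : LM W G
  lm' : LM O' G'
  smooth : ContDiffOn ℝ ∞ ψ W
  maps : MapsTo ψ W O'
  pull : ∀ y ∈ W, ∀ u v, G y u v = G' (ψ y) (fderiv ℝ ψ y u) (fderiv ℝ ψ y v)

lemma two_le_inf : (2 : WithTop ℕ∞) ≤ ∞ := ENat.LEInfty.out

variable {W O' : Set E} {ψ : E → E} {G G' : E → E →L[ℝ] E →L[ℝ] ℝ}

lemma Iso.at (h : Iso W ψ O' G G') {y : E} (hy : y ∈ W) : ContDiffAt ℝ ∞ ψ y :=
  h.smooth.contDiffAt (h.lm.isOpen.mem_nhds hy)

lemma Iso.dat (h : Iso W ψ O' G G') {y : E} (hy : y ∈ W) : ContDiffAt ℝ ∞ (fderiv ℝ ψ) y :=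
  (h.at hy).fderiv_right (m := ∞) (by simp)

lemma Iso.hasD (h : Iso W ψ O' G G') {y : E} (hy : y ∈ W) : HasFDerivAt ψ (fderiv ℝ ψ y) y :=
  ((h.at hy).differentiableAt (by simp)).hasFDerivAt

lemma Iso.hasDD (h : Iso W ψ O' G G') {y : E} (hy : y ∈ W) :
    HasFDerivAt (fderiv ℝ ψ) (fderiv ℝ (fderiv ℝ ψ) y) y :=
  ((h.dat hy).differentiableAt (by simp)).hasFDerivAt

lemma Iso.symm2 (h : Iso W ψ O' G G') {y : E} (hy : y ∈ W) (a b : E) :
    fderiv ℝ (fderiv ℝ ψ) y a b = fderiv ℝ (fderiv ℝ ψ) y b a :=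
  (h.at hy).isSymmSndFDerivAt (by simpa using two_le_inf) a b

lemma Iso.symm3 (h : Iso W ψ O' G G') {y : E} (hy : y ∈ W) (a b : E) :
    fderiv ℝ (fderiv ℝ (fderiv ℝ ψ)) y a b = fderiv ℝ (fderiv ℝ (fderiv ℝ ψ)) y b a :=
  (h.dat hy).isSymmSndFDerivAt (by simpa using two_le_inf) a b

lemma Iso.surj (h : Iso W ψ O' G G') {y : E} (hy : y ∈ W) : Surjective (fderiv ℝ ψ y) := by
  have : Injective ((fderiv ℝ ψ y : E →L[ℝ] E) : E →ₗ[ℝ] E) := by
    rw [injective_iff_map_eq_zero]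
    intro u hu
    apply h.lm.nondeg y hy
    intro v
    have hu' : fderiv ℝ ψ y u = 0 := hu
    rw [h.pull y hy, hu']
    simp
  exact LinearMap.injective_iff_surjective.1 this

lemma Iso.dG (h : Iso W ψ O' G G') {y : E} (hy : y ∈ W) (a u v : E) :
    fderiv ℝ G y a u v =
      fderiv ℝ G' (ψ y) (fderiv ℝ ψ y a) (fderiv ℝ ψ y u) (fderiv ℝ ψ y v)
      + G' (ψ y) (fderiv ℝ (fderiv ℝ ψ) y a u) (fderiv ℝ ψ y v)
      + G' (ψ y) (fderiv ℝ ψ y u) (fderiv ℝ (fderiv ℝ ψ) y a v) := by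
  have hd : HasFDerivAt G (fderiv ℝ G y) y :=
    ((h.lm.at hy).differentiableAt (by simp)).hasFDerivAt
  have h1 := (hd.clm_apply (hasFDerivAt_const u y)).clm_apply (hasFDerivAt_const v y)
  have hd' : HasFDerivAt G' (fderiv ℝ G' (ψ y)) (ψ y) :=
    ((h.lm'.at (h.maps hy)).differentiableAt (by simp)).hasFDerivAt
  have h2 := ((hd'.comp y (h.hasD hy)).clm_apply
    ((h.hasDD hy).clm_apply (hasFDerivAt_const u y))).clm_apply
    ((h.hasDD hy).clm_apply (hasFDerivAt_const v y))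
  have h3 : (fun z => G z u v) =ᶠ[𝓝 y]
      fun z => G' (ψ z) (fderiv ℝ ψ z u) (fderiv ℝ ψ z v) := by
    filter_upwards [h.lm.isOpen.mem_nhds hy] with z hz using h.pull z hz u v
  have := (h1.congr_of_eventuallyEq h3.symm).unique h2
  have := congrArg (fun L => L a) this
  simp at this
  rw [this]
  ring

/-- transformation law of the Christoffel symbols -/
lemma Iso.chr (h : Iso W ψ O' G G') {y : E} (hy : y ∈ W) (u v : E) :
    fderiv ℝ ψ y (chr G y u v) =
      fderiv ℝ (fderiv ℝ ψ) y u v + chr G' (ψ y) (fderiv ℝ ψ y u) (fderiv ℝ ψ y v) := by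
  apply h.lm'.ext (h.maps hy)
  intro w'
  obtain ⟨w, rfl⟩ := h.surj hy w'
  rw [← h.pull y hy, h.lm.koszul hy, map_add, add_apply, h.lm'.koszul (h.maps hy),
    h.dG hy, h.dG hy, h.dG hy, h.symm2 hy v u, h.symm2 hy w u, h.symm2 hy w v,
    h.lm'.symm _ (h.maps hy) (fderiv ℝ ψ y v) (fderiv ℝ (fderiv ℝ ψ) y u w)]
  ring

lemma Iso.cur (h : Iso W ψ O' G G') {y : E} (hy : y ∈ W) (a b c : E) :
    fderiv ℝ ψ y (cur G y a b c) =
      cur G' (ψ y) (fderiv ℝ ψ y a) (fderiv ℝ ψ y b) (fderiv ℝ ψ y c) := by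
  have hC : HasFDerivAt (RSym.chr G) (fderiv ℝ (RSym.chr G) y) y :=
    ((h.lm.chr_at hy).differentiableAt (by simp)).hasFDerivAt
  have hC' : HasFDerivAt (RSym.chr G') (fderiv ℝ (RSym.chr G') (ψ y)) (ψ y) :=
    ((h.lm'.chr_at (h.maps hy)).differentiableAt (by simp)).hasFDerivAt
  have hDDD : HasFDerivAt (fderiv ℝ (fderiv ℝ ψ)) (fderiv ℝ (fderiv ℝ (fderiv ℝ ψ)) y) y :=
    (((h.dat hy).fderiv_right (m := ∞) (by simp)).differentiableAt (by simp)).hasFDerivAt
  have key : ∀ a b c : E,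
      fderiv ℝ (fderiv ℝ ψ) y a (RSym.chr G y b c)
        + fderiv ℝ ψ y (fderiv ℝ (RSym.chr G) y a b c) =
      fderiv ℝ (fderiv ℝ (fderiv ℝ ψ)) y a b c
        + (fderiv ℝ (RSym.chr G') (ψ y) (fderiv ℝ ψ y a) (fderiv ℝ ψ y b) (fderiv ℝ ψ y c)
        + RSym.chr G' (ψ y) (fderiv ℝ (fderiv ℝ ψ) y a b) (fderiv ℝ ψ y c)
        + RSym.chr G' (ψ y) (fderiv ℝ ψ y b) (fderiv ℝ (fderiv ℝ ψ) y a c)) := by
    intro a b c
    have h1 := (h.hasDD hy).clm_apply
      ((hC.clm_apply (hasFDerivAt_const b y)).clm_apply (hasFDerivAt_const c y))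
    have h2 := ((hDDD.clm_apply (hasFDerivAt_const b y)).clm_apply (hasFDerivAt_const c y)).add
      (((hC'.comp y (h.hasD hy)).clm_apply
        ((h.hasDD hy).clm_apply (hasFDerivAt_const b y))).clm_apply
        ((h.hasDD hy).clm_apply (hasFDerivAt_const c y)))
    have h3 : (fun z => fderiv ℝ ψ z (RSym.chr G z b c)) =ᶠ[𝓝 y]
        fun z => fderiv ℝ (fderiv ℝ ψ) z b c +
          RSym.chr G' (ψ z) (fderiv ℝ ψ z b) (fderiv ℝ ψ z c) := by
      filter_upwards [h.lm.isOpen.mem_nhds hy] with z hz using h.chr hz b c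
    have := (h1.congr_of_eventuallyEq h3.symm).unique h2
    have := congrArg (fun L => L a) this
    simp at this
    rw [add_comm, this]
    abel
  have k1 := key a b c
  have k2 := key b a c
  rw [h.symm3 hy b a, h.symm2 hy b a] at k2
  unfold RSym.cur
  rw [map_sub, map_add, map_sub, h.chr hy a (RSym.chr G y b c), h.chr hy b (RSym.chr G y a c),
    h.chr hy b c, h.chr hy a c,
    eq_sub_of_add_eq' k1, eq_sub_of_add_eq' k2]
  simp only [map_add]
  abel

/-- `T` is the pullback of `T'` -/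
def Pull (W : Set E) (ψ : E → E) {k : ℕ} (T T' : E → (Fin k → E) → ℝ) : Prop :=
  ∀ y ∈ W, ∀ v, T y v = T' (ψ y) (fun i => fderiv ℝ ψ y (v i))

lemma Iso.cov (h : Iso W ψ O' G G') {k : ℕ} {T T' : E → (Fin k → E) → ℝ} (hT : Tens W T)
    (hT' : Tens O' T') (hp : Pull W ψ T T') : Pull W ψ (covDeriv G T) (covDeriv G' T') := by
  intro y hy v
  rw [← Fin.cons_self_tail v]
  generalize v 0 = a
  generalize Fin.tail v = w
  have hl : HasDerivAt (fun s : ℝ => y + s • a) a 0 := by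
    simpa using ((hasDerivAt_id (0:ℝ)).smul_const a).const_add y
  have hl0 : (fun s : ℝ => y + s • a) 0 = y := by simp
  have h1 := hT.hasDerivAt (G := G) (y := fun s : ℝ => y + s • a) (w := fun _ => w) (t := 0)
    (by simpa using hy) hl (hasDerivAt_const _ _)
  have hψ : HasDerivAt (fun s : ℝ => ψ (y + s • a)) (fderiv ℝ ψ y a) 0 :=
    HasFDerivAt.comp_hasDerivAt (l := ψ) (f := fun s : ℝ => y + s • a) 0
      (by simpa using h.hasD hy) hl
  have hA : HasDerivAt (fun s : ℝ => fun i => fderiv ℝ ψ (y + s • a) (w i))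
      (fun i => fderiv ℝ (fderiv ℝ ψ) y a (w i)) 0 := by
    rw [hasDerivAt_pi]
    intro i
    have : HasDerivAt (fun s : ℝ => fderiv ℝ ψ (y + s • a)) (fderiv ℝ (fderiv ℝ ψ) y a) 0 :=
      HasFDerivAt.comp_hasDerivAt (l := fderiv ℝ ψ) (f := fun s : ℝ => y + s • a) 0
        (by simpa using h.hasDD hy) hl
    simpa using this.clm_apply (hasDerivAt_const _ (w i))
  have h2 := hT'.hasDerivAt (G := G') (y := fun s : ℝ => ψ (y + s • a))
    (w := fun s i => fderiv ℝ ψ (y + s • a) (w i)) (t := 0)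
    (by simpa using h.maps hy) hψ hA
  have h3 : (fun s : ℝ => T (y + s • a) w) =ᶠ[𝓝 0]
      fun s => T' (ψ (y + s • a)) (fun i => fderiv ℝ ψ (y + s • a) (w i)) := by
    have : ∀ᶠ s : ℝ in 𝓝 0, y + s • a ∈ W :=
      hl.continuousAt.eventually (by simpa using h.lm.isOpen.mem_nhds hy)
    filter_upwards [this] with s hs using hp _ hs w
  have h4 := (h1.congr_of_eventuallyEq h3.symm).unique h2
  simp only [zero_smul, add_zero, Pi.zero_apply, zero_add] at h4
  have h5 : ∀ j, T y (update w j (RSym.chr G y a (w j))) =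
      T' (ψ y) (update (fun i => fderiv ℝ ψ y (w i)) j (fderiv ℝ (fderiv ℝ ψ) y a (w j) +
        RSym.chr G' (ψ y) (fderiv ℝ ψ y a) (fderiv ℝ ψ y (w j)))) := by
    intro j
    rw [hp y hy, ← h.chr hy]
    congr 1
    funext i
    by_cases hij : i = j
    · subst hij; simp
    · simp [update_of_ne hij]
  rw [Finset.sum_congr rfl fun j _ => h5 j] at h4
  have h6 : (fun i => fderiv ℝ ψ y ((Fin.cons a w : Fin (k + 1) → E) i)) =
      (Fin.cons (fderiv ℝ ψ y a) (fun i => fderiv ℝ ψ y (w i)) : Fin (k + 1) → E) := by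
    funext i
    refine Fin.cases ?_ (fun m => ?_) i <;> simp
  rw [h6]
  linarith

lemma Iso.covRiemann (h : Iso W ψ O' G G') (r : ℕ) :
    Pull W ψ (covRiemann G r) (covRiemann G' r) := by
  induction r with
  | zero =>
    intro y hy v
    show riemann G y v = riemann G' (ψ y) _
    rw [h.lm.riemann_eq hy, h.lm'.riemann_eq (h.maps hy), h.pull y hy, h.cur hy]
  | succ r ih => exact h.cov (h.lm.tens r) (h.lm'.tens r) ih

end Pool.Agent.H825Z.RSym
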