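import Pool.Agent.H825Z.RSym.Atl

/-! Integral curves of the standard horizontal vector fields. -/

set_option autoImplicit false
set_option maxSynthPendingDepth 3
set_option linter.unusedSectionVars false

open Set Filter Topology Function Metric
open scoped ContDiff NNReal

namespace Pool.Agent.H825Z.RSym

variable {E M : Type*} [NormedAddCommGroup E] [NormedSpace ℝ E] [FiniteDimensional ℝ E]
  [TopologicalSpace M]

lemma hd_fst {X Y : Type*} [NormedAddCommGroup X] [NormedSpace ℝ X] [NormedAddCommGroup Y]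
    [NormedSpace ℝ Y] {f : ℝ → X × Y} {f' : X × Y} {t : ℝ} (h : HasDerivAt f f' t) :
    HasDerivAt (fun s => (f s).1) f'.1 t :=
  (ContinuousLinearMap.fst ℝ X Y).hasFDerivAt.comp_hasDerivAt t h

lemma hd_snd {X Y : Type*} [NormedAddCommGroup X] [NormedSpace ℝ X] [NormedAddCommGroup Y]
    [NormedSpace ℝ Y] {f : ℝ → X × Y} {f' : X × Y} {t : ℝ} (h : HasDerivAt f f' t) :
    HasDerivAt (fun s => (f s).2) f'.2 t :=
  (ContinuousLinearMap.snd ℝ X Y).hasFDerivAt.comp_hasDerivAt t h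

namespace Atl

variable {A : Atl E M} {ι : Type} [Fintype ι]

variable (A) in
/-- `c` is at time `t` a geodesic with a parallel family of vectors whose `k`-th one is the
velocity -/
def Sol (k : ι) (c : ℝ → M × (ι → E)) (t : ℝ) : Prop :=
  ContinuousAt (fun s => (c s).1) t ∧
    HasDerivAt (fun s => A.κ (c t).1 (c s)) (A.F k (c t).1 (A.κ (c t).1 (c t))) t

lemma hasDerivAt_change {k : ι} {c : ℝ → M × (ι → E)} {t : ℝ} {x x' : M}
    (hc : ContinuousAt (fun s => (c s).1) t) (h : (c t).1 ∈ (A.φ x).source)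
    (h' : (c t).1 ∈ (A.φ x').source)
    (hd : HasDerivAt (fun s => A.κ x (c s)) (A.F k x (A.κ x (c t))) t) :
    HasDerivAt (fun s => A.κ x' (c s)) (A.F k x' (A.κ x' (c t))) t := by
  have := (hasFDerivAt_change hc h h' hd.hasFDerivAt).hasDerivAt
  simp only [ContinuousLinearMap.comp_apply, ContinuousLinearMap.toSpanSingleton_apply,
    one_smul] at this
  rwa [F_change k (κ_mem_W h h'), ← κ_change h h'] at this

lemma Sol.chart {k : ι} {c : ℝ → M × (ι → E)} {t : ℝ} (hc : A.Sol k c t) {x : M}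
    (h : (c t).1 ∈ (A.φ x).source) :
    HasDerivAt (fun s => A.κ x (c s)) (A.F k x (A.κ x (c t))) t :=
  hasDerivAt_change hc.1 (A.mem _) h hc.2

lemma Sol.of_chart {k : ι} {c : ℝ → M × (ι → E)} {t : ℝ} {x : M}
    (hc : ContinuousAt (fun s => (c s).1) t) (h : (c t).1 ∈ (A.φ x).source)
    (hd : HasDerivAt (fun s => A.κ x (c s)) (A.F k x (A.κ x (c t))) t) : A.Sol k c t :=
  ⟨hc, hasDerivAt_change hc h (A.mem _) hd⟩

lemma Sol.congr {k : ι} {c c' : ℝ → M × (ι → E)} {t : ℝ} (hc : A.Sol k c t)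
    (h : c' =ᶠ[𝓝 t] c) : A.Sol k c' t := by
  refine ⟨hc.1.congr (h.mono fun w hw => by simp [hw]), ?_⟩
  rw [h.eq_of_nhds]
  exact hc.2.congr_of_eventuallyEq (h.mono fun w hw => by simp [hw])

lemma Sol.shift {k : ι} {c : ℝ → M × (ι → E)} {t a : ℝ} (hc : A.Sol k c (t + a)) :
    A.Sol k (fun s => c (s + a)) t :=
  ⟨ContinuousAt.comp (g := fun s => (c s).1) (f := fun s => s + a) hc.1 (by fun_prop),
    hc.2.comp_add_const t a⟩

lemma sol_κi {k : ι} {q : ℝ → E × (ι → E)} {t : ℝ} {x : M} (h : (q t).1 ∈ (A.φ x).target)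
    (hq : HasDerivAt q (A.F k x (q t)) t) : A.Sol k (fun s => A.κi x (q s)) t := by
  refine Sol.of_chart (x := x) ?_ ((A.φ x).map_target h) ?_
  · exact ContinuousAt.comp (g := (A.φ x).symm) (f := fun w => (q w).1)
      ((A.φ x).continuousAt_symm h) hq.continuousAt.fst
  · rw [κ_κi h]
    refine hq.congr_of_eventuallyEq ?_
    filter_upwards [hq.continuousAt.fst.eventually ((A.φ x).open_target.mem_nhds h)] with w hw
    exact κ_κi hw

/-- reindexing -/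
def rx {ι' : Type} (f : ι' → ι) (p : M × (ι → E)) : M × (ι' → E) := (p.1, fun i => p.2 (f i))

lemma Sol.rx {ι' : Type} [Fintype ι'] (f : ι' → ι) {k : ι'} {c : ℝ → M × (ι → E)} {t : ℝ}
    (hc : A.Sol (f k) c t) : A.Sol k (fun s => rx f (c s)) t := by
  refine ⟨hc.1, ?_⟩
  have h := hc.2
  refine HasDerivAt.prodMk h.fst ?_
  rw [hasDerivAt_pi]
  intro i
  exact (hasDerivAt_pi.1 h.snd) (f i)

lemma sol_eventually_chart {k : ι} {c : ℝ → M × (ι → E)} {t : ℝ} {x : M}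
    (hc : ∀ᶠ s in 𝓝 t, A.Sol k c s) (h : (c t).1 ∈ (A.φ x).source) :
    ∀ᶠ s in 𝓝 t, (c s).1 ∈ (A.φ x).source ∧
      HasDerivAt (fun s => A.κ x (c s)) (A.F k x (A.κ x (c s))) s := by
  filter_upwards [hc, hc.self_of_nhds.1.eventually ((A.φ x).open_source.mem_nhds h)] with s h1 h2
  exact ⟨h2, h1.chart h2⟩

lemma sol_unique_local {k : ι} {c₁ c₂ : ℝ → M × (ι → E)} {t : ℝ}
    (h₁ : ∀ᶠ s in 𝓝 t, A.Sol k c₁ s) (h₂ : ∀ᶠ s in 𝓝 t, A.Sol k c₂ s) (he : c₁ t = c₂ t) :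
    c₁ =ᶠ[𝓝 t] c₂ := by
  set x := (c₁ t).1
  have hx₁ : (c₁ t).1 ∈ (A.φ x).source := A.mem _
  have hx₂ : (c₂ t).1 ∈ (A.φ x).source := he ▸ hx₁
  have e₁ := sol_eventually_chart h₁ hx₁
  have e₂ := sol_eventually_chart h₂ hx₂
  obtain ⟨K, S, hS, hK⟩ := ((contDiffAt_F k (κ_mem hx₁)).of_le
    (m := 1) (by simp)).exists_lipschitzOnWith
  have m₁ : ∀ᶠ s in 𝓝 t, A.κ x (c₁ s) ∈ S := e₁.self_of_nhds.2.continuousAt.eventually hS
  have m₂ : ∀ᶠ s in 𝓝 t, A.κ x (c₂ s) ∈ S :=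
    e₂.self_of_nhds.2.continuousAt.eventually (p := fun y => y ∈ S) (by
      have : S ∈ 𝓝 (A.κ x (c₂ t)) := he ▸ hS
      exact this)
  have := ODE_solution_unique_of_eventually (v := fun _ => A.F k x) (s := fun _ => S) (K := K)
    (f := fun s => A.κ x (c₁ s)) (g := fun s => A.κ x (c₂ s)) (t₀ := t)
    (Eventually.of_forall fun _ => hK)
    (by filter_upwards [e₁, m₁] with s a b using ⟨a.2, b⟩)
    (by filter_upwards [e₂, m₂] with s a b using ⟨a.2, b⟩) (by simp only [he])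
  filter_upwards [this, e₁, e₂] with s a b c
  exact κ_inj b.1 c.1 a

variable [T2Space M]

lemma sol_unique {k : ι} {c₁ c₂ : ℝ → M × (ι → E)} {J : Set ℝ} (hJ : IsOpen J)
    (hJc : J.OrdConnected) (h₁ : ∀ s ∈ J, A.Sol k c₁ s) (h₂ : ∀ s ∈ J, A.Sol k c₂ s) {t₀ : ℝ}
    (ht₀ : t₀ ∈ J) (he : c₁ t₀ = c₂ t₀) : EqOn c₁ c₂ J := by
  have hloc : ∀ t ∈ J, c₁ t = c₂ t → c₁ =ᶠ[𝓝 t] c₂ := fun t ht h =>
    sol_unique_local (by filter_upwards [hJ.mem_nhds ht] using h₁)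
      (by filter_upwards [hJ.mem_nhds ht] using h₂) h
  have : J ⊆ {t | c₁ =ᶠ[𝓝 t] c₂} := by
    refine hJc.isPreconnected.subset_of_closure_inter_subset isOpen_setOf_eventually_nhds
      ⟨t₀, ht₀, hloc t₀ ht₀ he⟩ ?_
    rintro t ⟨ht, htJ⟩
    apply hloc t htJ
    have hf : ∃ᶠ s in 𝓝 t, c₁ s = c₂ s :=
      (mem_closure_iff_frequently.1 ht).mono fun s hs => hs.eq_of_nhds
    have hb : (c₁ t).1 = (c₂ t).1 :=
      tendsto_nhds_unique_of_frequently_eq (h₁ t htJ).1 (h₂ t htJ).1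
        (hf.mono fun s hs => by simp only [hs])
    have hx₁ : (c₁ t).1 ∈ (A.φ (c₁ t).1).source := A.mem _
    have hx₂ : (c₂ t).1 ∈ (A.φ (c₁ t).1).source := hb ▸ hx₁
    refine κ_inj hx₁ hx₂ ?_
    exact tendsto_nhds_unique_of_frequently_eq ((h₁ t htJ).chart hx₁).continuousAt
      ((h₂ t htJ).chart hx₂).continuousAt (hf.mono fun s hs => by simp only [hs])
  exact fun t ht => (this ht).eq_of_nhds

lemma sol_glue {k : ι} {c₁ c₂ : ℝ → M × (ι → E)} {J₁ J₂ : Set ℝ} (hJ₁ : IsOpen J₁)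
    (hc₁ : J₁.OrdConnected) (hJ₂ : IsOpen J₂) (hc₂ : J₂.OrdConnected)
    (h₁ : ∀ s ∈ J₁, A.Sol k c₁ s) (h₂ : ∀ s ∈ J₂, A.Sol k c₂ s) {t₀ : ℝ}
    (ht₁ : t₀ ∈ J₁) (ht₂ : t₀ ∈ J₂) (he : c₁ t₀ = c₂ t₀) :
    ∃ c : ℝ → M × (ι → E), (∀ s ∈ J₁ ∪ J₂, A.Sol k c s) ∧ EqOn c c₁ J₁ := by
  classical
  have hu := sol_unique (hJ₁.inter hJ₂) (hc₁.inter hc₂) (fun s hs => h₁ s hs.1)
    (fun s hs => h₂ s hs.2) ⟨ht₁, ht₂⟩ he
  have e₁ : EqOn (J₁.piecewise c₁ c₂) c₁ J₁ := fun s hs => piecewise_eq_of_mem _ _ _ hs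
  have e₂ : EqOn (J₁.piecewise c₁ c₂) c₂ J₂ := by
    intro s hs
    by_cases h : s ∈ J₁
    · rw [e₁ h]; exact hu ⟨h, hs⟩
    · exact piecewise_eq_of_notMem _ _ _ h
  refine ⟨J₁.piecewise c₁ c₂, ?_, e₁⟩
  rintro s (hs | hs)
  · exact (h₁ s hs).congr (e₁.eventuallyEq_of_mem (hJ₁.mem_nhds hs))
  · exact (h₂ s hs).congr (e₂.eventuallyEq_of_mem (hJ₂.mem_nhds hs))

omit [T2Space M] in
lemma ordConnected_union {J₁ J₂ : Set ℝ} (hc₁ : J₁.OrdConnected) (hc₂ : J₂.OrdConnected) {t : ℝ}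
    (h₁ : t ∈ J₁) (h₂ : t ∈ J₂) : (J₁ ∪ J₂).OrdConnected :=
  (hc₁.isPreconnected.union t h₁ h₂ hc₂.isPreconnected).ordConnected

omit [T2Space M] in
lemma sol_local (k : ι) (t₀ : ℝ) (p : M × (ι → E)) :
    ∃ ε > (0 : ℝ), ∃ c : ℝ → M × (ι → E), c t₀ = p ∧ ∀ s ∈ Ioo (t₀ - ε) (t₀ + ε), A.Sol k c s := by
  have hx : p.1 ∈ (A.φ p.1).source := A.mem _
  obtain ⟨α, h0, ε, hε, hα⟩ := ((contDiffAt_F k (κ_mem hx)).of_le
    (m := 1) (by simp)).exists_forall_mem_closedBall_exists_eq_forall_mem_Ioo_hasDerivAt₀ t₀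
  have hc : ContinuousAt α t₀ := (hα t₀ ⟨by linarith, by linarith⟩).continuousAt
  have : ∀ᶠ s in 𝓝 t₀, (α s).1 ∈ (A.φ p.1).target :=
    hc.fst.eventually ((A.φ p.1).open_target.mem_nhds (by
      show (α t₀).1 ∈ _
      rw [h0]; exact κ_mem hx))
  obtain ⟨δ, hδ, hδ'⟩ := Metric.eventually_nhds_iff_ball.1 this
  refine ⟨min ε δ, by positivity, fun s => A.κi p.1 (α s), by simp only [h0, κi_κ hx], ?_⟩
  intro s hs
  have h1 := min_le_left ε δ
  have h2 := min_le_right ε δ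
  refine sol_κi (hδ' s ?_) (hα s ⟨by linarith [hs.1], by linarith [hs.2]⟩)
  rw [Real.ball_eq_Ioo]
  exact ⟨by linarith [hs.1], by linarith [hs.2]⟩

variable (A) in
/-- maximal solutions -/
structure MaxSol (k : ι) (c : ℝ → M × (ι → E)) (D : Set ℝ) : Prop where
  isOpen : IsOpen D
  ord : D.OrdConnected
  sol : ∀ t ∈ D, A.Sol k c t
  max : ∀ (J : Set ℝ) (c' : ℝ → M × (ι → E)) (t₁ : ℝ), IsOpen J → J.OrdConnected → t₁ ∈ J →
    t₁ ∈ D → (∀ t ∈ J, A.Sol k c' t) → c' t₁ = c t₁ → J ⊆ D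

lemma exists_maxSol (k : ι) (t₀ : ℝ) (p : M × (ι → E)) :
    ∃ c D, A.MaxSol k c D ∧ t₀ ∈ D ∧ c t₀ = p := by
  classical
  let good : Set ℝ → (ℝ → M × (ι → E)) → Prop := fun J c =>
    IsOpen J ∧ J.OrdConnected ∧ t₀ ∈ J ∧ c t₀ = p ∧ ∀ s ∈ J, A.Sol k c s
  let D : Set ℝ := {t | ∃ J c, good J c ∧ t ∈ J}
  have hD : ∀ t ∈ D, ∃ c, ∃ J, good J c ∧ t ∈ J := fun t ⟨J, c, h⟩ => ⟨c, J, h⟩
  choose cc hcc using hD
  let c : ℝ → M × (ι → E) := fun t => if h : t ∈ D then cc t h t else p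
  have hc : ∀ J c', good J c' → EqOn c c' J := by
    intro J c' hg t ht
    have htD : t ∈ D := ⟨J, c', hg, ht⟩
    obtain ⟨J₂, hg₂, ht₂⟩ := hcc t htD
    simp only [c, dif_pos htD]
    exact sol_unique (hg₂.1.inter hg.1) (hg₂.2.1.inter hg.2.1)
      (fun s hs => hg₂.2.2.2.2 s hs.1) (fun s hs => hg.2.2.2.2 s hs.2) ⟨hg₂.2.2.1, hg.2.2.1⟩
      (hg₂.2.2.2.1.trans hg.2.2.2.1.symm) ⟨ht₂, ht⟩
  obtain ⟨ε, hε, c₀, h0, hc₀⟩ := sol_local (A := A) k t₀ p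
  have hg₀ : good (Ioo (t₀ - ε) (t₀ + ε)) c₀ :=
    ⟨isOpen_Ioo, ordConnected_Ioo, ⟨by linarith, by linarith⟩, h0, hc₀⟩
  have ht₀ : t₀ ∈ D := ⟨_, _, hg₀, hg₀.2.2.1⟩
  have hct₀ : c t₀ = p := (hc _ _ hg₀ hg₀.2.2.1).trans h0
  have hDo : IsOpen D := by
    rw [isOpen_iff_mem_nhds]
    rintro t ⟨J, c', hg, ht⟩
    filter_upwards [hg.1.mem_nhds ht] with s hs using ⟨J, c', hg, hs⟩
  have hDc : D.OrdConnected := by
    apply IsPreconnected.ordConnected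
    refine isPreconnected_of_forall t₀ ?_
    rintro t ⟨J, c', hg, ht⟩
    exact ⟨J, fun s hs => ⟨J, c', hg, hs⟩, hg.2.2.1, ht, hg.2.1.isPreconnected⟩
  have hDs : ∀ t ∈ D, A.Sol k c t := by
    rintro t ⟨J, c', hg, ht⟩
    exact (hg.2.2.2.2 t ht).congr ((hc J c' hg).eventuallyEq_of_mem (hg.1.mem_nhds ht))
  refine ⟨c, D, ⟨hDo, hDc, hDs, ?_⟩, ht₀, hct₀⟩
  intro J c' t₁ hJ hJc h1 h2 hs he
  obtain ⟨c'', hs'', he''⟩ := sol_glue hDo hDc hJ hJc hDs hs h2 h1 he.symm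
  intro t ht
  exact ⟨D ∪ J, c'', ⟨hDo.union hJ, ordConnected_union hDc hJc h2 h1, Or.inl ht₀,
    (he'' ht₀).trans hct₀, hs''⟩, Or.inr ht⟩

omit [T2Space M] in
/-- linear equations have solutions on a uniform interval -/
lemma linear_ode {X : Type*} [NormedAddCommGroup X] [NormedSpace ℝ X] [CompleteSpace X]
    {B : ℝ → X →L[ℝ] X} {T : ℝ} (hB : ∀ᶠ t in 𝓝 T, ContinuousAt B t) :
    ∃ δ > (0 : ℝ), ∃ K : ℝ≥0, (∀ t ∈ Ioo (T - δ) (T + δ), ‖B t‖ ≤ K) ∧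
      ∀ t₁ ∈ Ioo (T - δ) (T + δ), ∀ u₁ : X, ∃ u : ℝ → X, u t₁ = u₁ ∧
        ∀ t ∈ Ioo (T - δ) (T + δ), HasDerivAt u (B t (u t)) t := by
  have h1 : ∀ᶠ t in 𝓝 T, ‖B t‖ < ‖B T‖ + 1 :=
    hB.self_of_nhds.norm.eventually (gt_mem_nhds (by linarith))
  obtain ⟨δ₀, hδ₀, hδ₀'⟩ := Metric.eventually_nhds_iff_ball.1 (hB.and h1)
  set K : ℝ≥0 := ‖B T‖₊ + 1 with hK
  have hK' : (K : ℝ) = ‖B T‖ + 1 := by simp [hK]
  have hKpos : (0 : ℝ) < K := by rw [hK']; positivity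
  set δ := min (δ₀ / 2) (1 / (4 * K)) with hδ
  have hδpos : 0 < δ := by positivity
  have hδ1 : δ ≤ δ₀ / 2 := min_le_left _ _
  have hδ2 : δ ≤ 1 / (4 * K) := min_le_right _ _
  have hsub : ∀ t ∈ Icc (T - δ) (T + δ), t ∈ ball T δ₀ := by
    intro t ht
    rw [Real.ball_eq_Ioo]
    exact ⟨by linarith [ht.1], by linarith [ht.2]⟩
  have hn : ∀ t ∈ Icc (T - δ) (T + δ), ‖B t‖ ≤ K := fun t ht => by
    rw [hK']; exact (hδ₀' t (hsub t ht)).2.le
  refine ⟨δ, hδpos, K, fun t ht => hn t (Ioo_subset_Icc_self ht), fun t₁ ht₁ u₁ => ?_⟩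
  have hpl : IsPicardLindelof (fun t u => B t u)
      (⟨t₁, Ioo_subset_Icc_self ht₁⟩ : Icc (T - δ) (T + δ)) u₁ (‖u₁‖₊ + 1) 0
      (K * (2 * (‖u₁‖₊ + 1))) K := by
    constructor
    · intro t ht
      refine ((B t).lipschitz.weaken ?_).lipschitzOnWith
      exact_mod_cast hn t ht
    · intro x _ t ht
      exact ((hδ₀' t (hsub t ht)).1.clm_apply continuousAt_const).continuousWithinAt
    · intro t ht x hx
      refine ((B t).le_opNorm x).trans ?_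
      have : ‖x‖ ≤ 2 * (‖u₁‖ + 1) := by
        have h := mem_closedBall_iff_norm.1 hx
        have h2 := norm_le_norm_sub_add x u₁
        push_cast at h
        linarith [norm_nonneg u₁]
      push_cast
      exact mul_le_mul (hn t ht) this (norm_nonneg _) hKpos.le
    · have : max (T + δ - t₁) (t₁ - (T - δ)) ≤ 2 * δ :=
        max_le (by linarith [ht₁.1]) (by linarith [ht₁.2])
      push_cast
      have h3 : (K : ℝ) * (4 * δ) ≤ 1 := by
        rw [le_div_iff₀ (by positivity)] at hδ2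
        linarith
      calc (K : ℝ) * (2 * (‖u₁‖ + 1)) * max (T + δ - t₁) (t₁ - (T - δ))
          ≤ (K : ℝ) * (2 * (‖u₁‖ + 1)) * (2 * δ) := by gcongr
        _ = (K * (4 * δ)) * (‖u₁‖ + 1) := by ring
        _ ≤ 1 * (‖u₁‖ + 1) := by gcongr
        _ = ‖u₁‖ + 1 - 0 := by ring
  obtain ⟨u, h0, hu⟩ := hpl.exists_eq_forall_mem_Icc_hasDerivWithinAt₀
  exact ⟨u, h0, fun t ht => (hu t (Ioo_subset_Icc_self ht)).hasDerivAt (Icc_mem_nhds ht.1 ht.2)⟩

omit [T2Space M] in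
/-- parallel transport exists on a uniform interval -/
lemma parallel_local (k : ι) {γ : ℝ → M × (Unit → E)} {T : ℝ} (hγ : ∀ᶠ t in 𝓝 T, A.Sol () γ t) :
    ∃ δ > (0 : ℝ), ∀ t₁ ∈ Ioo (T - δ) (T + δ), ∀ p : M × (ι → E), rx (fun _ => k) p = γ t₁ →
      ∃ c : ℝ → M × (ι → E), c t₁ = p ∧ ∀ t ∈ Ioo (T - δ) (T + δ), A.Sol k c t := by
  have : CompleteSpace E := FiniteDimensional.complete ℝ E
  set x := (γ T).1
  have e := sol_eventually_chart (x := x) hγ (A.mem _)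
  set q : ℝ → E × (Unit → E) := fun s => A.κ x (γ s) with hq
  let B₀ : ℝ → E →L[ℝ] E := fun t => -chr (A.G x) (q t).1 ((q t).2 ())
  let P : (E →L[ℝ] E) →L[ℝ] ((ι → E) →L[ℝ] (ι → E)) :=
    LinearMap.toContinuousLinearMap
      { toFun := fun L => ContinuousLinearMap.pi fun i => L ∘L ContinuousLinearMap.proj i
        map_add' := by intro a b; ext; simp
        map_smul' := by intro a b; ext; simp }
  have hP : ∀ L u i, P L u i = L (u i) := fun _ _ _ => rfl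
  have hB₀ : ∀ᶠ t in 𝓝 T, ContinuousAt B₀ t := by
    filter_upwards [e] with t ht
    have hc : ContinuousAt q t := ht.2.continuousAt
    have b1 : ContinuousAt (fun t => chr (A.G x) (q t).1) t :=
      ContinuousAt.comp (g := chr (A.G x)) (f := fun t => (q t).1)
        ((A.lm x).chr_at (κ_mem ht.1)).continuousAt hc.fst
    have b2 : ContinuousAt (fun t => (q t).2 ()) t :=
      ContinuousAt.comp (g := fun w : Unit → E => w ()) (f := fun t => (q t).2)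
        (continuous_apply ()).continuousAt hc.snd
    exact (b1.clm_apply b2).neg
  obtain ⟨δ₁, hδ₁, K₁, -, h₁⟩ := linear_ode (B := fun t => P (B₀ t)) (T := T)
    (hB₀.mono fun t ht => P.continuous.continuousAt.comp ht)
  obtain ⟨δ₂, hδ₂, K, hK, -⟩ := linear_ode hB₀
  obtain ⟨δ₃, hδ₃, h₃⟩ := Metric.eventually_nhds_iff_ball.1 e
  set δ := min δ₁ (min δ₂ δ₃) with hδ
  have a1 : δ ≤ δ₁ := min_le_left _ _
  have a2 : δ ≤ δ₂ := (min_le_right _ _).trans (min_le_left _ _)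
  have a3 : δ ≤ δ₃ := (min_le_right _ _).trans (min_le_right _ _)
  have s1 : Ioo (T - δ) (T + δ) ⊆ Ioo (T - δ₁) (T + δ₁) := Ioo_subset_Ioo (by linarith) (by linarith)
  have s2 : Ioo (T - δ) (T + δ) ⊆ Ioo (T - δ₂) (T + δ₂) := Ioo_subset_Ioo (by linarith) (by linarith)
  have s3 : Ioo (T - δ) (T + δ) ⊆ ball T δ₃ := by
    rw [Real.ball_eq_Ioo]; exact Ioo_subset_Ioo (by linarith) (by linarith)
  refine ⟨δ, by positivity, fun t₁ ht₁ p hp => ?_⟩
  obtain ⟨u, hu0, hu⟩ := h₁ t₁ (s1 ht₁) (A.κ x p).2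
  have hpx : p.1 ∈ (A.φ x).source := by
    have := (h₃ t₁ (s3 ht₁)).1
    rw [← hp] at this
    exact this
  have huk : EqOn (fun t => u t k) (fun t => (q t).2 ()) (Ioo (T - δ) (T + δ)) := by
    refine ODE_solution_unique_of_mem_Ioo (v := fun t w => B₀ t w) (s := fun _ => univ) (K := K)
      (t₀ := t₁) (fun t ht => ?_) ht₁ (fun t ht => ⟨?_, trivial⟩) (fun t ht => ⟨?_, trivial⟩) ?_
    · refine ((B₀ t).lipschitz.weaken ?_).lipschitzOnWith
      exact_mod_cast hK t (s2 ht)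
    · exact hasDerivAt_pi.1 (hu t (s1 ht)) k
    · exact hasDerivAt_pi.1 (h₃ t (s3 ht)).2.snd ()
    · simp only [hu0, hq, ← hp]
      rfl
  refine ⟨fun t => A.κi x ((q t).1, u t), ?_, fun t ht => ?_⟩
  · have : ((q t₁).1, u t₁) = A.κ x p := by
      rw [hu0, hq]
      simp only [← hp]
      rfl
    simp only [this, κi_κ hpx]
  · refine sol_κi (q := fun t => ((q t).1, u t)) (κ_mem (h₃ t (s3 ht)).1) ?_
    have h1 : HasDerivAt (fun t => (q t).1) ((q t).2 ()) t := hd_fst (h₃ t (s3 ht)).2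
    have h2 := hu t (s1 ht)
    have h3 : u t k = (q t).2 () := huk ht
    refine (HasDerivAt.prodMk h1 h2).congr_deriv ?_
    simp only [F, h3]
    rfl

lemma MaxSol.subset {k : ι} {c : ℝ → M × (ι → E)} {D : Set ℝ} (h : A.MaxSol k c D)
    {γ : ℝ → M × (Unit → E)} {J : Set ℝ} (hJ : IsOpen J) (hJc : J.OrdConnected)
    (hγ : ∀ t ∈ J, A.Sol () γ t) {t₁ : ℝ} (h1 : t₁ ∈ J) (h2 : t₁ ∈ D)
    (he : rx (fun _ => k) (c t₁) = γ t₁) :
    J ⊆ D ∧ ∀ t ∈ J, rx (fun _ => k) (c t) = γ t := by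
  have hu : EqOn (fun t => rx (fun _ : Unit => k) (c t)) γ (D ∩ J) :=
    sol_unique (h.isOpen.inter hJ) (h.ord.inter hJc)
      (fun s hs => Sol.rx (fun _ : Unit => k) (k := ()) (h.sol s hs.1)) (fun s hs => hγ s hs.2)
      ⟨h2, h1⟩ he
  have : J ⊆ D := by
    refine hJc.isPreconnected.subset_of_closure_inter_subset h.isOpen ⟨t₁, h1, h2⟩ ?_
    rintro T ⟨hT, hTJ⟩
    obtain ⟨δ, hδ, hδ'⟩ := parallel_local (A := A) k (γ := γ) (T := T)
      (by filter_upwards [hJ.mem_nhds hTJ] using hγ)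
    have hm : T ∈ Ioo (T - δ) (T + δ) := ⟨by linarith, by linarith⟩
    obtain ⟨t₂, ⟨h3, h4⟩, h5⟩ := mem_closure_iff_nhds.1 hT _
      (inter_mem (isOpen_Ioo.mem_nhds hm) (hJ.mem_nhds hTJ))
    obtain ⟨c', h6, h7⟩ := hδ' t₂ h3 (c t₂) (hu ⟨h5, h4⟩)
    exact h.max _ c' t₂ isOpen_Ioo ordConnected_Ioo h3 h5 h7 h6 hm
  exact ⟨this, fun t ht => hu ⟨this ht, ht⟩⟩

omit [T2Space M] in
lemma Sol.gram {k : ι} {c : ℝ → M × (ι → E)} {t : ℝ} (hc : A.Sol k c t) (i j : ι) :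
    HasDerivAt (fun s => A.gram (c s) i j) 0 t := by
  set x := (c t).1
  have hx : (c t).1 ∈ (A.φ x).source := A.mem _
  have h := hc.2
  have hG : HasDerivAt (fun s => A.G x (A.κ x (c s)).1) _ t :=
    HasFDerivAt.comp_hasDerivAt (l := A.G x) (f := fun s => (A.κ x (c s)).1) t
      (((A.lm x).at (κ_mem hx)).differentiableAt (by simp)).hasFDerivAt h.fst
  have h2 := (hG.clm_apply (hasDerivAt_pi.1 h.snd i)).clm_apply (hasDerivAt_pi.1 h.snd j)
  have h3 : (fun s => A.gram (c s) i j) =ᶠ[𝓝 t]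
      fun s => A.G x (A.κ x (c s)).1 ((A.κ x (c s)).2 i) ((A.κ x (c s)).2 j) := by
    filter_upwards [hc.1.eventually ((A.φ x).open_source.mem_nhds hx)] with s hs
    exact gram_chart hs i j
  refine (h2.congr_of_eventuallyEq h3).congr_deriv ?_
  simp only [F, add_apply, map_neg, neg_apply]
  rw [(A.lm x).compat (κ_mem hx)]
  ring

omit [T2Space M] in
lemma gram_const {k : ι} {c : ℝ → M × (ι → E)} {J : Set ℝ} (hJ : IsOpen J) (hJc : J.OrdConnected)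
    (hc : ∀ t ∈ J, A.Sol k c t) {s t : ℝ} (hs : s ∈ J) (ht : t ∈ J) :
    A.gram (c s) = A.gram (c t) := by
  funext i j
  exact hJ.is_const_of_deriv_eq_zero hJc.isPreconnected
    (fun t ht => ((hc t ht).gram i j).differentiableAt.differentiableWithinAt)
    (fun t ht => ((hc t ht).gram i j).deriv) hs ht

omit [T2Space M] in
lemma Sol.jet {k : ι} {c : ℝ → M × (ι → E)} {t : ℝ} (hc : A.Sol k c t) (m : ℕ)
    (I : Fin (4 + m) → ι) :
    HasDerivAt (fun s => A.jet m (c s) I)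
      (A.jet (m + 1) (c t) (Fin.cons k I : Fin (4 + m + 1) → ι)) t := by
  set x := (c t).1
  have hx : (c t).1 ∈ (A.φ x).source := A.mem _
  have h := hc.2
  have h2 := ((A.lm x).tens m).hasDerivAt (G := A.G x) (y := fun s => (A.κ x (c s)).1)
    (w := fun s j => (A.κ x (c s)).2 (I j)) (t := t) (κ_mem hx) h.fst
    (hasDerivAt_pi.2 fun j => hasDerivAt_pi.1 h.snd (I j))
  have h3 : (fun s => A.jet m (c s) I) =ᶠ[𝓝 t]
      fun s => covRiemann (A.G x) m (A.κ x (c s)).1 (fun j => (A.κ x (c s)).2 (I j)) := by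
    filter_upwards [hc.1.eventually ((A.φ x).open_source.mem_nhds hx)] with s hs
    exact jet_chart m hs I
  refine (h2.congr_of_eventuallyEq h3).congr_deriv ?_
  rw [jet_chart (m + 1) hx]
  simp only [F, neg_add_cancel, x]
  have h4 : ∀ j, covRiemann (A.G x) m (A.κ x (c t)).1
      (update (fun j => (A.κ x (c t)).2 (I j)) j 0) = 0 :=
    fun j => (((A.lm x).tens m).lin _ (κ_mem hx) _ j).map_zero
  simp only [x] at h4
  simp only [h4, Finset.sum_const_zero, add_zero]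
  show _ = covDeriv _ _ _ _
  congr 1
  funext j
  refine Fin.cases ?_ (fun m => ?_) j <;> simp

variable (A) in
def Bnd (r : ℕ) (K : ℝ) (p : M × (ι → E)) : Prop := ∀ m ≤ r, ∀ I, |A.jet m p I| ≤ K

omit [T2Space M] in
lemma bnd_sol {r : ℕ} (hr : ∀ (p : M × (ι → E)) I, A.jet r p I = 0) {k : ι}
    {c : ℝ → M × (ι → E)} {J : Set ℝ} (hJc : J.OrdConnected)
    (hc : ∀ t ∈ J, A.Sol k c t) {t₀ K L : ℝ} (hK : 0 ≤ K) (hL : 0 ≤ L) (ht₀ : t₀ ∈ J)
    (hb : A.Bnd r K (c t₀)) {t : ℝ} (ht : t ∈ J) (htL : |t - t₀| ≤ L) :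
    A.Bnd r (K * (1 + L) ^ r) (c t) := by
  have key : ∀ j m, m + j = r → ∀ I, ∀ t ∈ J ∩ closedBall t₀ L,
      |A.jet m (c t) I| ≤ K * (1 + L) ^ j := by
    intro j
    induction j with
    | zero =>
      intro m hm I t _
      obtain rfl : m = r := by simpa using hm
      rw [hr]; simpa using hK
    | succ j ih =>
      intro m hm I t ht
      have hconv : Convex ℝ (J ∩ closedBall t₀ L) :=
        hJc.convex.inter (convex_closedBall _ _)
      have h1 := hconv.norm_image_sub_le_of_norm_hasDerivWithin_le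
        (f := fun s => A.jet m (c s) I) (C := K * (1 + L) ^ j)
        (fun s hs => ((hc s hs.1).jet m I).hasDerivWithinAt)
        (fun s hs => ih (m + 1) (by omega) _ s hs) ⟨ht₀, mem_closedBall_self hL⟩ ht
      have h2 := hb m (by omega) I
      have h3 : ‖t - t₀‖ ≤ L := mem_closedBall_iff_norm.1 ht.2
      have h4 : (1 : ℝ) ≤ (1 + L) ^ j := one_le_pow₀ (by linarith)
      have h5 : K * (1 + L) ^ j * ‖t - t₀‖ ≤ K * (1 + L) ^ j * L := by gcongr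
      rw [Real.norm_eq_abs] at h1
      have h6 := abs_sub_abs_le_abs_sub (A.jet m (c t) I) (A.jet m (c t₀) I)
      have h7 : K ≤ K * (1 + L) ^ j := le_mul_of_one_le_right hK h4
      rw [pow_succ]
      nlinarith
  intro m hm I
  refine (key (r - m) m (by omega) I t ⟨ht, mem_closedBall_iff_norm.2 htL⟩).trans ?_
  gcongr
  · linarith
  · omega

end Atl

end Pool.Agent.H825Z.RSym
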